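import Pool.Agent.K1H36.NF.Disc

/-!
# Covers by cylinder intersections

The function is `1` if the chosen cell is in the set for some block. A cover of the zeros, and a
disjoint cover of the ones, by star-closed classes has at least `2 ^ k` (`2 ^ k - 1`) members.
-/

set_option autoImplicit false

open Finset

namespace Pool.Agent.K1H36.NF

section cover

variable {k : ℕ} {Cl : Type}

/-- The zeros of the function. -/
def Zero (z : Zt k 512) (s t : St k 512) : Prop := ∀ b, z b (s b, t b) = false

/-- The number of all inputs. -/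
noncomputable def tot (k : ℕ) : ℝ := ((2 : ℝ) ^ (512 * 512)) ^ k * ((512 : ℝ) ^ k) ^ 2

theorem tot_pos (k : ℕ) : 0 < tot k := by
  unfold tot
  positivity

theorem gs_zero {z : Zt k 512} {s t : St k 512} (h : Zero z s t) : gs z s t = 1 := by
  unfold gs
  apply Finset.prod_eq_one
  intro b _
  rw [h b]
  rfl

open Classical in
/-- The number of the zeros. -/
theorem mass : ∑ z : Zt k 512, ∑ t : St k 512, ∑ s : St k 512,
    (if Zero z s t then (1 : ℝ) else 0) = tot k / 2 ^ k := by
  have h1 : ∀ (s t : St k 512), ∑ z : Zt k 512, (if Zero z s t then (1 : ℝ) else 0) =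
      ((2 : ℝ) ^ (512 * 512) / 2) ^ k := by
    intro s t
    have h2 : ∀ z : Zt k 512, (if Zero z s t then (1 : ℝ) else 0) =
        ∏ b, (if z b (s b, t b) = false then (1 : ℝ) else 0) := by
      intro z
      by_cases h : Zero z s t
      · rw [if_pos h]
        symm
        apply Finset.prod_eq_one
        intro b _
        rw [if_pos (h b)]
      · rw [if_neg h]
        symm
        unfold Zero at h
        push Not at h
        obtain ⟨b, hb⟩ := h
        apply Finset.prod_eq_zero (mem_univ b)
        rw [if_neg hb]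
    rw [Finset.sum_congr rfl fun z _ => h2 z,
      sum_pi (fun b (w : Fin 512 × Fin 512 → Bool) => if w (s b, t b) = false then (1 : ℝ) else 0),
      Finset.prod_congr rfl fun b _ => block_half (s b, t b), Finset.prod_const, card_univ,
      Fintype.card_fin]
  rw [Finset.sum_comm]
  have h3 : ∀ t : St k 512, ∑ z : Zt k 512, ∑ s : St k 512, (if Zero z s t then (1 : ℝ) else 0) =
      (512 : ℝ) ^ k * ((2 : ℝ) ^ (512 * 512) / 2) ^ k := by
    intro t
    rw [Finset.sum_comm, Finset.sum_congr rfl fun s _ => h1 s t, Finset.sum_const, card_univ,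
      Fintype.card_fun, Fintype.card_fin, Fintype.card_fin, nsmul_eq_mul]
    push_cast
    ring
  rw [Finset.sum_congr rfl fun t _ => h3 t, Finset.sum_const, card_univ, Fintype.card_fun,
    Fintype.card_fin, Fintype.card_fin, nsmul_eq_mul]
  obtain ⟨X, hX⟩ : ∃ X : ℝ, X = (2 : ℝ) ^ (512 * 512) := ⟨_, rfl⟩
  unfold tot
  rw [← hX, div_pow]
  push_cast
  ring

variable (S : Cl → Zt k 512 → St k 512 → St k 512 → Prop)
  (star : ∀ c z z' s s' t t', S c z' s t → S c z s' t → S c z s t' → S c z s t)

include star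

open Classical in
/-- The sum of the signs over a class is small. -/
theorem class_small (c : Cl) : |∑ z : Zt k 512, ∑ t : St k 512, ∑ s : St k 512,
    gs z s t * (if S c z s t then (1 : ℝ) else 0)| ≤ tot k / 4 ^ k := by
  have h1 := disc (k := k) (fun s t => if ∃ z', S c z' s t then (1 : ℝ) else 0)
    (fun z t => if ∃ s', S c z s' t then (1 : ℝ) else 0)
    (fun z s => if ∃ t', S c z s t' then (1 : ℝ) else 0)
    (fun s t => by split_ifs <;> simp) (fun z t => by split_ifs <;> simp)
    (fun z s => by split_ifs <;> simp)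
  refine le_trans (le_of_eq ?_) h1
  congr 1
  refine Finset.sum_congr rfl fun z _ => Finset.sum_congr rfl fun t _ =>
    Finset.sum_congr rfl fun s _ => ?_
  rw [mul_assoc, mul_assoc]
  congr 1
  by_cases h : S c z s t
  · rw [if_pos h, if_pos ⟨z, h⟩, if_pos ⟨s, h⟩, if_pos ⟨t, h⟩]
    norm_num
  · rw [if_neg h]
    by_cases h2 : ∃ z', S c z' s t
    · by_cases h3 : ∃ s', S c z s' t
      · by_cases h4 : ∃ t', S c z s t'
        · obtain ⟨z', h2⟩ := h2
          obtain ⟨s', h3⟩ := h3
          obtain ⟨t', h4⟩ := h4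
          exact absurd (star c z z' s s' t t' h2 h3 h4) h
        · rw [if_neg h4]
          ring
      · rw [if_neg h3]
        ring
    · rw [if_neg h2]
      ring

/-- **Covers of the zeros.** -/
theorem cover_bound [Fintype Cl] (cover : ∀ z s t, (∃ c, S c z s t) ↔ Zero z s t) :
    2 ^ k ≤ Fintype.card Cl := by
  classical
  have h1 : ∀ c, ∑ z : Zt k 512, ∑ t : St k 512, ∑ s : St k 512,
      (if S c z s t then (1 : ℝ) else 0) ≤ tot k / 4 ^ k := by
    intro c
    refine le_trans (le_of_eq ?_) ((le_abs_self _).trans (class_small S star c))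
    refine Finset.sum_congr rfl fun z _ => Finset.sum_congr rfl fun t _ =>
      Finset.sum_congr rfl fun s _ => ?_
    by_cases h : S c z s t
    · rw [gs_zero ((cover z s t).1 ⟨c, h⟩), one_mul]
    · rw [if_neg h, mul_zero]
  have h2 : tot k / 2 ^ k ≤ Fintype.card Cl * (tot k / 4 ^ k) := by
    rw [← mass]
    calc ∑ z : Zt k 512, ∑ t : St k 512, ∑ s : St k 512, (if Zero z s t then (1 : ℝ) else 0) ≤
        ∑ z : Zt k 512, ∑ t : St k 512, ∑ s : St k 512,
          ∑ c, (if S c z s t then (1 : ℝ) else 0) := by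
          refine Finset.sum_le_sum fun z _ => Finset.sum_le_sum fun t _ =>
            Finset.sum_le_sum fun s _ => ?_
          have h3 : ∀ c, (0 : ℝ) ≤ (if S c z s t then (1 : ℝ) else 0) := fun c => by
            split_ifs <;> norm_num
          by_cases h : Zero z s t
          · obtain ⟨c, hc⟩ := (cover z s t).2 h
            rw [if_pos h]
            refine le_trans ?_ (Finset.single_le_sum (fun c _ => h3 c) (mem_univ c))
            rw [if_pos hc]
          · rw [if_neg h]
            exact Finset.sum_nonneg fun c _ => h3 c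
      _ = ∑ c, ∑ z : Zt k 512, ∑ t : St k 512, ∑ s : St k 512,
          (if S c z s t then (1 : ℝ) else 0) := by
          have f1 : ∀ (z : Zt k 512) (t : St k 512), ∑ s : St k 512,
              ∑ c, (if S c z s t then (1 : ℝ) else 0) = ∑ c, ∑ s : St k 512,
                (if S c z s t then (1 : ℝ) else 0) := fun z t => Finset.sum_comm
          have f2 : ∀ (z : Zt k 512), ∑ t : St k 512, ∑ s : St k 512,
              ∑ c, (if S c z s t then (1 : ℝ) else 0) = ∑ c, ∑ t : St k 512, ∑ s : St k 512,
                (if S c z s t then (1 : ℝ) else 0) := by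
            intro z
            rw [Finset.sum_congr rfl fun t _ => f1 z t, Finset.sum_comm]
          rw [Finset.sum_congr rfl fun z _ => f2 z, Finset.sum_comm]
      _ ≤ ∑ _c : Cl, tot k / 4 ^ k := Finset.sum_le_sum fun c _ => h1 c
      _ = _ := by rw [Finset.sum_const, card_univ, nsmul_eq_mul]
  have h3 : (2 : ℝ) ^ k ≤ Fintype.card Cl := by
    have h4 : (4 : ℝ) ^ k = 2 ^ k * 2 ^ k := by
      rw [← mul_pow]
      norm_num
    have h5 : (0 : ℝ) < 2 ^ k := by positivity
    have h6 := tot_pos k
    rw [h4] at h2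
    have h7 : tot k / 2 ^ k * (2 ^ k * 2 ^ k) ≤
        Fintype.card Cl * (tot k / (2 ^ k * 2 ^ k)) * (2 ^ k * 2 ^ k) :=
      mul_le_mul_of_nonneg_right h2 (by positivity)
    have h8 : tot k / 2 ^ k * (2 ^ k * 2 ^ k) = tot k * 2 ^ k := by
      field_simp
    have h9 : Fintype.card Cl * (tot k / (2 ^ k * 2 ^ k)) * (2 ^ k * 2 ^ k) =
        tot k * Fintype.card Cl := by
      field_simp
    rw [h8, h9] at h7
    exact le_of_mul_le_mul_left h7 h6
  exact_mod_cast h3

/-- **Disjoint covers of the ones.** -/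
theorem disjoint_bound [Fintype Cl] (disj : ∀ c c' z s t, S c z s t → S c' z s t → c = c')
    (cover : ∀ z s t, (∃ c, S c z s t) ↔ ¬ Zero z s t) : 2 ^ k ≤ Fintype.card Cl + 1 := by
  classical
  have h0 : |∑ z : Zt k 512, ∑ t : St k 512, ∑ s : St k 512, gs z s t| ≤ tot k / 4 ^ k := by
    have h1 := disc (k := k) (fun _ _ => (1 : ℝ)) (fun _ _ => (1 : ℝ)) (fun _ _ => (1 : ℝ))
      (fun _ _ => by simp) (fun _ _ => by simp) (fun _ _ => by simp)
    simp only [mul_one] at h1
    exact h1
  have h1 : ∀ (z : Zt k 512) (s t : St k 512), gs z s t = (if Zero z s t then (1 : ℝ) else 0) +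
      ∑ c, gs z s t * (if S c z s t then (1 : ℝ) else 0) := by
    intro z s t
    by_cases h : Zero z s t
    · rw [if_pos h, gs_zero h]
      have h2 : ∀ c, ¬ S c z s t := fun c hc => (cover z s t).1 ⟨c, hc⟩ h
      have h3 : ∑ c, (1 : ℝ) * (if S c z s t then (1 : ℝ) else 0) = 0 :=
        Finset.sum_eq_zero fun c _ => by rw [if_neg (h2 c), mul_zero]
      rw [h3, add_zero]
    · rw [if_neg h, zero_add]
      obtain ⟨c, hc⟩ := (cover z s t).2 h
      rw [Finset.sum_eq_single c]
      · rw [if_pos hc, mul_one]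
      · intro c' _ hcc
        rw [if_neg, mul_zero]
        intro h3
        exact hcc (disj _ _ _ _ _ h3 hc)
      · intro h3
        exact absurd (mem_univ _) h3
  have h2 : ∑ z : Zt k 512, ∑ t : St k 512, ∑ s : St k 512, gs z s t = tot k / 2 ^ k +
      ∑ c, ∑ z : Zt k 512, ∑ t : St k 512, ∑ s : St k 512,
        gs z s t * (if S c z s t then (1 : ℝ) else 0) := by
    rw [← mass]
    have f1 : ∀ (z : Zt k 512) (t : St k 512), ∑ s : St k 512,
        ∑ c, gs z s t * (if S c z s t then (1 : ℝ) else 0) = ∑ c, ∑ s : St k 512,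
          gs z s t * (if S c z s t then (1 : ℝ) else 0) := fun z t => Finset.sum_comm
    have f2 : ∀ (z : Zt k 512), ∑ t : St k 512, ∑ s : St k 512,
        ∑ c, gs z s t * (if S c z s t then (1 : ℝ) else 0) = ∑ c, ∑ t : St k 512, ∑ s : St k 512,
          gs z s t * (if S c z s t then (1 : ℝ) else 0) := by
      intro z
      rw [Finset.sum_congr rfl fun t _ => f1 z t, Finset.sum_comm]
    have f3 : ∑ z : Zt k 512, ∑ t : St k 512, ∑ s : St k 512,
        ∑ c, gs z s t * (if S c z s t then (1 : ℝ) else 0) = ∑ c, ∑ z : Zt k 512,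
        ∑ t : St k 512, ∑ s : St k 512, gs z s t * (if S c z s t then (1 : ℝ) else 0) := by
      rw [Finset.sum_congr rfl fun z _ => f2 z, Finset.sum_comm]
    rw [← f3, ← Finset.sum_add_distrib]
    refine Finset.sum_congr rfl fun z _ => ?_
    rw [← Finset.sum_add_distrib]
    refine Finset.sum_congr rfl fun t _ => ?_
    rw [← Finset.sum_add_distrib]
    exact Finset.sum_congr rfl fun s _ => h1 z s t
  have h3 : tot k / 2 ^ k ≤ (Fintype.card Cl + 1) * (tot k / 4 ^ k) := by
    have h4 : |∑ c, ∑ z : Zt k 512, ∑ t : St k 512, ∑ s : St k 512,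
        gs z s t * (if S c z s t then (1 : ℝ) else 0)| ≤ Fintype.card Cl * (tot k / 4 ^ k) := by
      refine (Finset.abs_sum_le_sum_abs _ _).trans ?_
      calc _ ≤ ∑ _c : Cl, tot k / 4 ^ k := Finset.sum_le_sum fun c _ => class_small S star c
        _ = _ := by rw [Finset.sum_const, card_univ, nsmul_eq_mul]
    have h5 := abs_le.1 h0
    have h6 := abs_le.1 h4
    rw [h2] at h5
    linarith [h5.2, h6.1]
  have h10 : (2 : ℝ) ^ k ≤ Fintype.card Cl + 1 := by
    have h4 : (4 : ℝ) ^ k = 2 ^ k * 2 ^ k := by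
      rw [← mul_pow]
      norm_num
    have h5 : (0 : ℝ) < 2 ^ k := by positivity
    have h6 := tot_pos k
    rw [h4] at h3
    have h7 : tot k / 2 ^ k * (2 ^ k * 2 ^ k) ≤
        (Fintype.card Cl + 1) * (tot k / (2 ^ k * 2 ^ k)) * (2 ^ k * 2 ^ k) :=
      mul_le_mul_of_nonneg_right h3 (by positivity)
    have h8 : tot k / 2 ^ k * (2 ^ k * 2 ^ k) = tot k * 2 ^ k := by
      field_simp
    have h9 : (Fintype.card Cl + 1) * (tot k / (2 ^ k * 2 ^ k)) * (2 ^ k * 2 ^ k) =
        tot k * (Fintype.card Cl + 1) := by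
      field_simp
    rw [h8, h9] at h7
    exact le_of_mul_le_mul_left h7 h6
  exact_mod_cast h10

end cover

end Pool.Agent.K1H36.NF
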