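import Mathlib

/-!
# A discrepancy bound for three players on the forehead

`k` blocks; in a block the first player has on the forehead a set of cells of an `ℓ × ℓ` grid, the
second one a row and the third one a column. The sign says for how many blocks (modulo two) the
chosen cell is in the set.
-/

set_option autoImplicit false

open Finset

namespace Pool.Agent.K1H36.NF

/-- The sign. -/
def sg (b : Bool) : ℝ := if b then -1 else 1

theorem sg_abs (b : Bool) : |sg b| = 1 := by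
  cases b <;> simp [sg]

theorem sg_sq (b : Bool) : sg b * sg b = 1 := by
  cases b <;> simp [sg]

section block

variable {ℓ : ℕ}

/-- Change the value at a cell. -/
def flip (x : Fin ℓ × Fin ℓ) : (Fin ℓ × Fin ℓ → Bool) ≃ (Fin ℓ × Fin ℓ → Bool) :=
  Function.Involutive.toPerm (fun w => Function.update w x (!w x)) (by
    intro w
    funext y
    by_cases h : y = x
    · subst h
      simp
    · simp [Function.update_of_ne h])

theorem flip_same (x : Fin ℓ × Fin ℓ) (w : Fin ℓ × Fin ℓ → Bool) : flip x w x = !w x := by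
  simp [flip]

theorem flip_ne {x y : Fin ℓ × Fin ℓ} (h : y ≠ x) (w : Fin ℓ × Fin ℓ → Bool) :
    flip x w y = w y := by
  simp [flip, Function.update_of_ne h]

theorem sg_not (b : Bool) : sg (!b) = - sg b := by
  cases b <;> simp [sg]

theorem block_zero {p p' q q' : Fin ℓ} (hp : p ≠ p') (hq : q ≠ q') :
    ∑ w : Fin ℓ × Fin ℓ → Bool, sg (w (p, q)) * sg (w (p', q)) * sg (w (p, q')) *
      sg (w (p', q')) = 0 := by
  have h1 := Equiv.sum_comp (flip (p, q)) (fun w : Fin ℓ × Fin ℓ → Bool =>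
    sg (w (p, q)) * sg (w (p', q)) * sg (w (p, q')) * sg (w (p', q')))
  have h2 : ∀ w : Fin ℓ × Fin ℓ → Bool, sg (flip (p, q) w (p, q)) * sg (flip (p, q) w (p', q)) *
      sg (flip (p, q) w (p, q')) * sg (flip (p, q) w (p', q')) =
      - (sg (w (p, q)) * sg (w (p', q)) * sg (w (p, q')) * sg (w (p', q'))) := by
    intro w
    rw [flip_same, flip_ne (by simp [hp.symm]), flip_ne (by simp [hq.symm]),
      flip_ne (by simp [hp.symm]), sg_not]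
    ring
  simp only [h2, Finset.sum_neg_distrib] at h1
  linarith

theorem block_le (p p' q q' : Fin ℓ) :
    |∑ w : Fin ℓ × Fin ℓ → Bool, sg (w (p, q)) * sg (w (p', q)) * sg (w (p, q')) *
      sg (w (p', q'))| ≤ if p = p' ∨ q = q' then (2 : ℝ) ^ (ℓ * ℓ) else 0 := by
  split_ifs with h
  · refine (Finset.abs_sum_le_sum_abs _ _).trans ?_
    simp only [abs_mul, sg_abs, mul_one, Finset.sum_const, card_univ, Fintype.card_fun,
      Fintype.card_bool, Fintype.card_prod, Fintype.card_fin, nsmul_eq_mul]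
    push_cast
    exact le_refl _
  · push Not at h
    rw [block_zero h.1 h.2, abs_zero]

theorem block_count : ∑ p : Fin ℓ, ∑ p' : Fin ℓ, ∑ q : Fin ℓ, ∑ q' : Fin ℓ,
    (if p = p' ∨ q = q' then (2 : ℝ) ^ (ℓ * ℓ) else 0) ≤ (2 : ℝ) ^ (ℓ * ℓ) * (2 * (ℓ : ℝ) ^ 3) := by
  have h1 : ∀ p p' q q' : Fin ℓ, (if p = p' ∨ q = q' then (2 : ℝ) ^ (ℓ * ℓ) else 0) ≤
      (if p = p' then (2 : ℝ) ^ (ℓ * ℓ) else 0) + (if q = q' then (2 : ℝ) ^ (ℓ * ℓ) else 0) := by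
    intro p p' q q'
    have h2 : (0 : ℝ) ≤ 2 ^ (ℓ * ℓ) := by positivity
    by_cases h3 : p = p' <;> by_cases h4 : q = q' <;> simp [h3, h4]
  calc _ ≤ ∑ p : Fin ℓ, ∑ p' : Fin ℓ, ∑ q : Fin ℓ, ∑ q' : Fin ℓ,
      ((if p = p' then (2 : ℝ) ^ (ℓ * ℓ) else 0) + (if q = q' then (2 : ℝ) ^ (ℓ * ℓ) else 0)) :=
        Finset.sum_le_sum fun p _ => Finset.sum_le_sum fun p' _ => Finset.sum_le_sum fun q _ =>
          Finset.sum_le_sum fun q' _ => h1 p p' q q'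
    _ = _ := by
        simp only [Finset.sum_add_distrib, Finset.sum_ite_eq, mem_univ, if_true, Finset.sum_const,
          card_univ, Fintype.card_fin, nsmul_eq_mul, ← Finset.mul_sum]
        ring

/-- Half of the sets do not contain a given cell. -/
theorem block_half (x : Fin ℓ × Fin ℓ) :
    ∑ w : Fin ℓ × Fin ℓ → Bool, (if w x = false then (1 : ℝ) else 0) = 2 ^ (ℓ * ℓ) / 2 := by
  have h0 : ∑ w : Fin ℓ × Fin ℓ → Bool, sg (w x) = 0 := by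
    have h1 := Equiv.sum_comp (flip x) (fun w : Fin ℓ × Fin ℓ → Bool => sg (w x))
    simp only [flip_same, sg_not, Finset.sum_neg_distrib] at h1
    linarith
  have h1 : ∀ w : Fin ℓ × Fin ℓ → Bool, (if w x = false then (1 : ℝ) else 0) =
      (1 + sg (w x)) / 2 := by
    intro w
    cases w x <;> simp [sg]
  simp only [h1]
  rw [← Finset.sum_div, Finset.sum_add_distrib, h0]
  simp only [Finset.sum_const, card_univ, Fintype.card_fun, Fintype.card_bool,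
    Fintype.card_prod, Fintype.card_fin, nsmul_eq_mul]
  push_cast
  ring

end block

section disc

variable {ℓ k : ℕ}

/-- The inputs on the forehead of the first player. -/
abbrev Zt (k ℓ : ℕ) := Fin k → Fin ℓ × Fin ℓ → Bool

/-- The inputs on the foreheads of the others. -/
abbrev St (k ℓ : ℕ) := Fin k → Fin ℓ

/-- The sign of an input. -/
noncomputable def gs (z : Zt k ℓ) (s t : St k ℓ) : ℝ := ∏ b, sg (z b (s b, t b))

theorem sum_pi {W : Type} [Fintype W] (F : Fin k → W → ℝ) :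
    ∑ z : Fin k → W, ∏ b, F b (z b) = ∏ b, ∑ w, F b w := by
  classical
  have h := Finset.prod_univ_sum (fun _ : Fin k => (univ : Finset W)) F
  rw [Fintype.piFinset_univ] at h
  exact h.symm

theorem gs_abs (z : Zt k ℓ) (s t : St k ℓ) : |gs z s t| = 1 := by
  unfold gs
  rw [Finset.abs_prod]
  simp [sg_abs]

/-- The sum over the sets. -/
theorem sum_four (s s' t t' : St k ℓ) :
    |∑ z : Zt k ℓ, gs z s t * gs z s' t * gs z s t' * gs z s' t'| ≤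
      ∏ b, if s b = s' b ∨ t b = t' b then (2 : ℝ) ^ (ℓ * ℓ) else 0 := by
  have h1 : ∀ z : Zt k ℓ, gs z s t * gs z s' t * gs z s t' * gs z s' t' =
      ∏ b, (sg (z b (s b, t b)) * sg (z b (s' b, t b)) * sg (z b (s b, t' b)) *
        sg (z b (s' b, t' b))) := by
    intro z
    simp only [gs, Finset.prod_mul_distrib]
  simp only [h1]
  rw [sum_pi (fun b (w : Fin ℓ × Fin ℓ → Bool) => sg (w (s b, t b)) * sg (w (s' b, t b)) *
    sg (w (s b, t' b)) * sg (w (s' b, t' b))), Finset.abs_prod]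
  exact Finset.prod_le_prod (fun _ _ => abs_nonneg _) fun b _ => block_le _ _ _ _

/-- The sum over everything. -/
theorem sum_all : ∑ s : St k ℓ, ∑ s' : St k ℓ, ∑ t : St k ℓ, ∑ t' : St k ℓ,
    (∏ b, if s b = s' b ∨ t b = t' b then (2 : ℝ) ^ (ℓ * ℓ) else 0) ≤
      ((2 : ℝ) ^ (ℓ * ℓ) * (2 * (ℓ : ℝ) ^ 3)) ^ k := by
  have h1 : ∀ s s' t : St k ℓ, ∑ t' : St k ℓ,
      (∏ b, if s b = s' b ∨ t b = t' b then (2 : ℝ) ^ (ℓ * ℓ) else 0) =
      ∏ b, ∑ q' : Fin ℓ, if s b = s' b ∨ t b = q' then (2 : ℝ) ^ (ℓ * ℓ) else 0 := by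
    intro s s' t
    exact sum_pi (fun b (q' : Fin ℓ) => if s b = s' b ∨ t b = q' then (2 : ℝ) ^ (ℓ * ℓ) else 0)
  have h2 : ∀ s s' : St k ℓ, ∑ t : St k ℓ, ∏ b, ∑ q' : Fin ℓ,
      (if s b = s' b ∨ t b = q' then (2 : ℝ) ^ (ℓ * ℓ) else 0) =
      ∏ b, ∑ q : Fin ℓ, ∑ q' : Fin ℓ, if s b = s' b ∨ q = q' then (2 : ℝ) ^ (ℓ * ℓ) else 0 := by
    intro s s'
    exact sum_pi (fun b (q : Fin ℓ) => ∑ q' : Fin ℓ,
      if s b = s' b ∨ q = q' then (2 : ℝ) ^ (ℓ * ℓ) else 0)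
  have h3 : ∀ s : St k ℓ, ∑ s' : St k ℓ, ∏ b, ∑ q : Fin ℓ, ∑ q' : Fin ℓ,
      (if s b = s' b ∨ q = q' then (2 : ℝ) ^ (ℓ * ℓ) else 0) =
      ∏ b, ∑ p' : Fin ℓ, ∑ q : Fin ℓ, ∑ q' : Fin ℓ,
        if s b = p' ∨ q = q' then (2 : ℝ) ^ (ℓ * ℓ) else 0 := by
    intro s
    exact sum_pi (fun b (p' : Fin ℓ) => ∑ q : Fin ℓ, ∑ q' : Fin ℓ,
      if s b = p' ∨ q = q' then (2 : ℝ) ^ (ℓ * ℓ) else 0)
  simp only [h1, h2, h3]
  rw [sum_pi (fun _ (p : Fin ℓ) => ∑ p' : Fin ℓ, ∑ q : Fin ℓ, ∑ q' : Fin ℓ,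
      if p = p' ∨ q = q' then (2 : ℝ) ^ (ℓ * ℓ) else 0), Finset.prod_const, card_univ,
    Fintype.card_fin]
  apply pow_le_pow_left₀ _ block_count
  refine Finset.sum_nonneg fun p _ => Finset.sum_nonneg fun p' _ => Finset.sum_nonneg fun q _ =>
    Finset.sum_nonneg fun q' _ => ?_
  split_ifs
  · positivity
  · exact le_refl _

theorem sq_le_one_of_abs {x : ℝ} (h : |x| ≤ 1) : x ^ 2 ≤ 1 := by
  rw [← sq_abs]
  exact pow_le_one₀ (abs_nonneg _) h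

/-- **Discrepancy**, fourth powers. -/
theorem disc4 (φ0 : St k ℓ → St k ℓ → ℝ) (φ1 φ2 : Zt k ℓ → St k ℓ → ℝ)
    (h0 : ∀ s t, |φ0 s t| ≤ 1) (h1 : ∀ z t, |φ1 z t| ≤ 1) (h2 : ∀ z s, |φ2 z s| ≤ 1) :
    (∑ z : Zt k ℓ, ∑ t : St k ℓ, ∑ s : St k ℓ, gs z s t * φ0 s t * φ1 z t * φ2 z s) ^ 4 ≤
      (((2 : ℝ) ^ (ℓ * ℓ)) ^ k) ^ 4 * (((ℓ : ℝ)) ^ k) ^ 4 * (2 * (ℓ : ℝ) ^ 3) ^ k := by
  obtain ⟨Nz, hNz⟩ : ∃ Nz : ℝ, Nz = ((2 : ℝ) ^ (ℓ * ℓ)) ^ k := ⟨_, rfl⟩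
  obtain ⟨Ns, hNs⟩ : ∃ Ns : ℝ, Ns = (ℓ : ℝ) ^ k := ⟨_, rfl⟩
  have cz : (Fintype.card (Zt k ℓ) : ℝ) = Nz := by
    rw [hNz]
    simp [Zt, pow_mul]
  have cs : (Fintype.card (St k ℓ) : ℝ) = Ns := by
    rw [hNs]
    simp [St]
  have hNz0 : 0 ≤ Nz := by rw [hNz]; positivity
  have hNs0 : 0 ≤ Ns := by rw [hNs]; positivity
  rw [← hNz, ← hNs]
  obtain ⟨A, hA⟩ : ∃ A, A = ∑ z : Zt k ℓ, ∑ t : St k ℓ, ∑ s : St k ℓ,
    gs z s t * φ0 s t * φ1 z t * φ2 z s := ⟨_, rfl⟩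
  rw [← hA]
  -- first step
  obtain ⟨A2, hA2⟩ : ∃ A2, A2 = ∑ p : Zt k ℓ × St k ℓ,
    (∑ s : St k ℓ, gs p.1 s p.2 * φ0 s p.2 * φ2 p.1 s) ^ 2 := ⟨_, rfl⟩
  have hA20 : 0 ≤ A2 := by
    rw [hA2]
    exact Finset.sum_nonneg fun p _ => sq_nonneg _
  have e1 : A ^ 2 ≤ Nz * Ns * A2 := by
    have e2 : A = ∑ p : Zt k ℓ × St k ℓ, φ1 p.1 p.2 *
        ∑ s : St k ℓ, gs p.1 s p.2 * φ0 s p.2 * φ2 p.1 s := by
      rw [hA, Fintype.sum_prod_type]
      refine Finset.sum_congr rfl fun z _ => Finset.sum_congr rfl fun t _ => ?_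
      rw [Finset.mul_sum]
      refine Finset.sum_congr rfl fun s _ => ?_
      ring
    rw [e2, hA2]
    refine (Finset.sum_mul_sq_le_sq_mul_sq _ _ _).trans ?_
    refine mul_le_mul_of_nonneg_right ?_ (Finset.sum_nonneg fun p _ => sq_nonneg _)
    calc ∑ p : Zt k ℓ × St k ℓ, φ1 p.1 p.2 ^ 2 ≤ ∑ _p : Zt k ℓ × St k ℓ, (1 : ℝ) :=
          Finset.sum_le_sum fun p _ => sq_le_one_of_abs (h1 _ _)
      _ = Nz * Ns := by
          rw [Finset.sum_const, card_univ, Fintype.card_prod, nsmul_eq_mul, mul_one]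
          push_cast
          rw [← cz, ← cs]
  -- second step
  obtain ⟨A3, hA3⟩ : ∃ A3, A3 = ∑ p : Zt k ℓ × St k ℓ × St k ℓ,
    (∑ t : St k ℓ, gs p.1 p.2.1 t * gs p.1 p.2.2 t * (φ0 p.2.1 t * φ0 p.2.2 t)) ^ 2 := ⟨_, rfl⟩
  have e3 : A2 ^ 2 ≤ Nz * Ns ^ 2 * A3 := by
    have e4 : A2 = ∑ p : Zt k ℓ × St k ℓ × St k ℓ, (φ2 p.1 p.2.1 * φ2 p.1 p.2.2) *
        ∑ t : St k ℓ, gs p.1 p.2.1 t * gs p.1 p.2.2 t * (φ0 p.2.1 t * φ0 p.2.2 t) := by
      rw [hA2, Fintype.sum_prod_type, Fintype.sum_prod_type]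
      refine Finset.sum_congr rfl fun z _ => ?_
      rw [Fintype.sum_prod_type]
      have f1 : ∀ t : St k ℓ, (∑ s : St k ℓ, gs z s t * φ0 s t * φ2 z s) ^ 2 =
          ∑ s : St k ℓ, ∑ s' : St k ℓ, (gs z s t * φ0 s t * φ2 z s) *
            (gs z s' t * φ0 s' t * φ2 z s') := by
        intro t
        rw [sq, Finset.sum_mul_sum]
      rw [Finset.sum_congr rfl fun t _ => f1 t, Finset.sum_comm]
      refine Finset.sum_congr rfl fun s _ => ?_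
      rw [Finset.sum_comm]
      refine Finset.sum_congr rfl fun s' _ => ?_
      rw [Finset.mul_sum]
      refine Finset.sum_congr rfl fun t _ => ?_
      ring
    rw [e4, hA3]
    refine (Finset.sum_mul_sq_le_sq_mul_sq _ _ _).trans ?_
    refine mul_le_mul_of_nonneg_right ?_ (Finset.sum_nonneg fun p _ => sq_nonneg _)
    calc ∑ p : Zt k ℓ × St k ℓ × St k ℓ, (φ2 p.1 p.2.1 * φ2 p.1 p.2.2) ^ 2 ≤
          ∑ _p : Zt k ℓ × St k ℓ × St k ℓ, (1 : ℝ) := by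
          refine Finset.sum_le_sum fun p _ => sq_le_one_of_abs ?_
          rw [abs_mul]
          exact mul_le_one₀ (h2 _ _) (abs_nonneg _) (h2 _ _)
      _ = Nz * Ns ^ 2 := by
          rw [Finset.sum_const, card_univ, Fintype.card_prod, Fintype.card_prod, nsmul_eq_mul,
            mul_one]
          push_cast
          rw [← cz, ← cs]
          ring
  -- third step
  have e5 : A3 ≤ Nz * (2 * (ℓ : ℝ) ^ 3) ^ k := by
    have e6 : A3 = ∑ s : St k ℓ, ∑ s' : St k ℓ, ∑ t : St k ℓ, ∑ t' : St k ℓ,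
        (φ0 s t * φ0 s' t * (φ0 s t' * φ0 s' t')) *
          ∑ z : Zt k ℓ, gs z s t * gs z s' t * gs z s t' * gs z s' t' := by
      rw [hA3, Fintype.sum_prod_type]
      have f1 : ∀ (z : Zt k ℓ) (s s' : St k ℓ),
          (∑ t : St k ℓ, gs z s t * gs z s' t * (φ0 s t * φ0 s' t)) ^ 2 =
          ∑ t : St k ℓ, ∑ t' : St k ℓ, (gs z s t * gs z s' t * (φ0 s t * φ0 s' t)) *
            (gs z s t' * gs z s' t' * (φ0 s t' * φ0 s' t')) := by
        intro z s s'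
        rw [sq, Finset.sum_mul_sum]
      simp only [Fintype.sum_prod_type, f1]
      rw [Finset.sum_comm]
      refine Finset.sum_congr rfl fun s _ => ?_
      rw [Finset.sum_comm]
      refine Finset.sum_congr rfl fun s' _ => ?_
      rw [Finset.sum_comm]
      refine Finset.sum_congr rfl fun t _ => ?_
      rw [Finset.sum_comm]
      refine Finset.sum_congr rfl fun t' _ => ?_
      rw [Finset.mul_sum]
      refine Finset.sum_congr rfl fun z _ => ?_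
      ring
    rw [e6]
    have e7 : ((2 : ℝ) ^ (ℓ * ℓ) * (2 * (ℓ : ℝ) ^ 3)) ^ k = Nz * (2 * (ℓ : ℝ) ^ 3) ^ k := by
      rw [mul_pow, hNz]
    rw [← e7]
    refine le_trans (Finset.sum_le_sum fun s _ => Finset.sum_le_sum fun s' _ =>
      Finset.sum_le_sum fun t _ => Finset.sum_le_sum fun t' _ => ?_) sum_all
    refine (le_abs_self _).trans ?_
    rw [abs_mul]
    refine le_trans ?_ (sum_four s s' t t')
    apply mul_le_of_le_one_left (abs_nonneg _)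
    rw [abs_mul, abs_mul, abs_mul]
    have a1 : |φ0 s t| * |φ0 s' t| ≤ 1 := mul_le_one₀ (h0 _ _) (abs_nonneg _) (h0 _ _)
    have a2 : |φ0 s t'| * |φ0 s' t'| ≤ 1 := mul_le_one₀ (h0 _ _) (abs_nonneg _) (h0 _ _)
    exact mul_le_one₀ a1 (by positivity) a2
  calc A ^ 4 = (A ^ 2) ^ 2 := by ring
    _ ≤ (Nz * Ns * A2) ^ 2 := pow_le_pow_left₀ (sq_nonneg _) e1 2
    _ = Nz ^ 2 * Ns ^ 2 * A2 ^ 2 := by ring
    _ ≤ Nz ^ 2 * Ns ^ 2 * (Nz * Ns ^ 2 * (Nz * (2 * (ℓ : ℝ) ^ 3) ^ k)) := by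
        apply mul_le_mul_of_nonneg_left _ (by positivity)
        exact e3.trans (mul_le_mul_of_nonneg_left e5 (by positivity))
    _ = _ := by ring

/-- **Discrepancy.** -/
theorem disc (φ0 : St k 512 → St k 512 → ℝ) (φ1 φ2 : Zt k 512 → St k 512 → ℝ)
    (h0 : ∀ s t, |φ0 s t| ≤ 1) (h1 : ∀ z t, |φ1 z t| ≤ 1) (h2 : ∀ z s, |φ2 z s| ≤ 1) :
    |∑ z : Zt k 512, ∑ t : St k 512, ∑ s : St k 512, gs z s t * φ0 s t * φ1 z t * φ2 z s| ≤
      ((2 : ℝ) ^ (512 * 512)) ^ k * ((512 : ℝ) ^ k) ^ 2 / 4 ^ k := by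
  have h := disc4 φ0 φ1 φ2 h0 h1 h2
  obtain ⟨Nz, hNz⟩ : ∃ Nz : ℝ, Nz = ((2 : ℝ) ^ (512 * 512)) ^ k := ⟨_, rfl⟩
  have hNz0 : 0 ≤ Nz := by rw [hNz]; positivity
  rw [← hNz] at h ⊢
  push_cast at h
  have e : (Nz : ℝ) ^ 4 * (((512 : ℝ)) ^ k) ^ 4 * (2 * (512 : ℝ) ^ 3) ^ k =
      (Nz * ((512 : ℝ) ^ k) ^ 2 / 4 ^ k) ^ 4 := by
    have e1 : (2 * (512 : ℝ) ^ 3) ^ k * ((4 : ℝ) ^ k) ^ 4 = ((512 : ℝ) ^ k) ^ 4 := by
      rw [← pow_mul, ← pow_mul, mul_comm k 4, pow_mul, pow_mul, ← mul_pow]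
      norm_num
    have e2 : ((4 : ℝ) ^ k) ^ 4 ≠ 0 := by positivity
    have e3 : (Nz * ((512 : ℝ) ^ k) ^ 2 / 4 ^ k) ^ 4 =
        Nz ^ 4 * ((512 : ℝ) ^ k) ^ 8 / ((4 : ℝ) ^ k) ^ 4 := by ring
    rw [e3, eq_div_iff e2]
    calc Nz ^ 4 * ((512 : ℝ) ^ k) ^ 4 * (2 * (512 : ℝ) ^ 3) ^ k * ((4 : ℝ) ^ k) ^ 4 =
        Nz ^ 4 * ((512 : ℝ) ^ k) ^ 4 * ((2 * (512 : ℝ) ^ 3) ^ k * ((4 : ℝ) ^ k) ^ 4) := by
          rw [mul_assoc]
      _ = Nz ^ 4 * ((512 : ℝ) ^ k) ^ 8 := by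
          rw [e1, mul_assoc, ← pow_add]
  rw [e] at h
  have h3 : |∑ z : Zt k 512, ∑ t : St k 512, ∑ s : St k 512,
      gs z s t * φ0 s t * φ1 z t * φ2 z s| ^ 4 ≤ (Nz * ((512 : ℝ) ^ k) ^ 2 / 4 ^ k) ^ 4 := by
    rw [← abs_pow, abs_of_nonneg (by positivity)]
    exact h
  exact le_of_pow_le_pow_left₀ (by norm_num) (by positivity) h3

end disc

end Pool.Agent.K1H36.NF
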