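import Pool.Agent.K1H36.TW.Defs

/-!
# Choice of edge-disjoint triangles which are seen by no part
-/

set_option autoImplicit false

open Finset

namespace Pool.Agent.K1H36.NF

open Pool.Agent.K1H36.TW (Var)

section sel

variable {m : ℕ}

/-- The edge number `i` of a triangle. -/
def edge (P : Fin 3 → Fin m) (i : Fin 3) : Var m := (i, P i, P (i + 1))

theorem edge_inj {P Q : Fin 3 → Fin m} {i : Fin 3} (h : edge P i = edge Q i) :
    P i = Q i ∧ P (i + 1) = Q (i + 1) := by
  unfold edge at h
  simp only [Prod.mk.injEq, true_and] at h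
  exact h

/-- At most `m` triangles have a given edge. -/
theorem card_through (v : Var m) :
    ((univ : Finset (Fin 3 → Fin m)).filter fun P => edge P v.1 = v).card ≤ m := by
  calc _ ≤ (univ : Finset (Fin m)).card := by
        apply Finset.card_le_card_of_injOn (fun P => P (v.1 + 2)) (fun _ _ => mem_univ _)
        intro P hP Q hQ hPQ
        have h1 := (mem_filter.1 hP).2
        have h2 := (mem_filter.1 hQ).2
        have h3 := edge_inj (h1.trans h2.symm)
        have h4 : P (v.1 + 2) = Q (v.1 + 2) := hPQ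
        obtain ⟨i, p, q⟩ := v
        funext j
        simp only at h3 h4
        fin_cases i <;> fin_cases j <;> first | exact h3.1 | exact h3.2 | exact h4
    _ = m := by rw [card_univ, Fintype.card_fin]

/-- **Loomis and Whitney.** -/
theorem loomis (W : Finset (Var m)) (N : Finset (Fin 3 → Fin m))
    (hN : ∀ P ∈ N, ∀ i, edge P i ∈ W) : N.card ^ 2 ≤ W.card ^ 3 := by
  classical
  have h1 : N.card = ∑ e ∈ W, (N.filter fun P => edge P 0 = e).card :=
    Finset.card_eq_sum_card_fiberwise fun P hP => hN P hP 0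
  have h2 : ∑ e ∈ W, (N.filter fun P => edge P 0 = e).card ^ 2 ≤ W.card ^ 2 := by
    have h3 : ∀ e, (N.filter fun P => edge P 0 = e).card ^ 2 =
        ((N.filter fun P => edge P 0 = e) ×ˢ (N.filter fun P => edge P 0 = e)).card := by
      intro e
      rw [card_product, sq]
    rw [Finset.sum_congr rfl fun e _ => h3 e, ← Finset.card_sigma, sq, ← card_product]
    apply Finset.card_le_card_of_injOn (fun a => (edge a.2.1 1, edge a.2.2 2))
    · intro a ha
      rw [Finset.mem_coe, mem_sigma, mem_product, mem_filter, mem_filter] at ha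
      rw [Finset.mem_coe, mem_product]
      exact ⟨hN _ ha.2.1.1 1, hN _ ha.2.2.1 2⟩
    · rintro ⟨e, P, Q⟩ ha ⟨e', P', Q'⟩ ha' h
      rw [Finset.mem_coe, mem_sigma, mem_product, mem_filter, mem_filter] at ha ha'
      obtain ⟨-, ⟨-, a1⟩, -, a2⟩ := ha
      obtain ⟨-, ⟨-, b1⟩, -, b2⟩ := ha'
      simp only [Prod.mk.injEq] at h
      simp only at a1 a2 b1 b2
      obtain ⟨c1, c2⟩ := h
      obtain ⟨d1, d2⟩ := edge_inj c1
      obtain ⟨d3, d4⟩ := edge_inj c2
      obtain ⟨f1, f2⟩ := edge_inj (a1.trans a2.symm)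
      obtain ⟨f3, f4⟩ := edge_inj (b1.trans b2.symm)
      have g1 : P = P' := by
        funext j
        fin_cases j
        · exact f1.trans (d4.trans f3.symm)
        · exact d1
        · exact d2
      have g2 : Q = Q' := by
        funext j
        fin_cases j
        · exact d4
        · exact f2.symm.trans (d1.trans f4)
        · exact d3
      subst g1 g2
      have g3 : e = e' := a1.symm.trans b1
      subst g3
      rfl
  calc N.card ^ 2 = (∑ e ∈ W, (N.filter fun P => edge P 0 = e).card) ^ 2 := by rw [h1]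
    _ ≤ W.card * ∑ e ∈ W, (N.filter fun P => edge P 0 = e).card ^ 2 :=
        sq_sum_le_card_mul_sum_sq
    _ ≤ W.card * W.card ^ 2 := Nat.mul_le_mul_left _ h2
    _ = W.card ^ 3 := by ring

theorem loomis' {ρ : ℕ} (W : Finset (Var m)) (N : Finset (Fin 3 → Fin m))
    (hN : ∀ P ∈ N, ∀ i, edge P i ∈ W) (hW : W.card ≤ ρ ^ 2) : N.card ≤ ρ * W.card := by
  have h1 : N.card ^ 2 ≤ (ρ * W.card) ^ 2 := by
    calc N.card ^ 2 ≤ W.card ^ 3 := loomis W N hN
      _ = W.card * W.card ^ 2 := by ring
      _ ≤ ρ ^ 2 * W.card ^ 2 := Nat.mul_le_mul_right _ hW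
      _ = _ := by ring
  exact (Nat.pow_le_pow_iff_left (by norm_num)).1 h1

/-- The colourings for which a triangle is split. -/
theorem card_colourings {s r' : ℕ} (T : Fin 3 → Finset (Fin s)) (hT : ∀ i, (T i).card ≤ r')
    (hno : ¬ ∃ j, ∀ i, j ∈ T i) :
    3 ^ s ≤ 27 ^ r' *
      ((univ : Finset (Fin s → Fin 3)).filter fun col => ∀ i, ∀ j ∈ T i, col j ≠ i).card := by
  classical
  have h1 : (univ : Finset (Fin s → Fin 3)).filter (fun col => ∀ i, ∀ j ∈ T i, col j ≠ i) =
      Fintype.piFinset fun j => (univ : Finset (Fin 3)).filter fun c => ∀ i, j ∈ T i → c ≠ i := by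
    ext col
    rw [mem_filter, Fintype.mem_piFinset]
    simp only [mem_univ, true_and, mem_filter]
    constructor
    · intro h j i hj
      exact h i j hj
    · intro h i j hj
      exact h j i hj
  rw [h1, Fintype.card_piFinset]
  have h2 : ∀ j : Fin s, 3 ≤ (∏ i : Fin 3, if j ∈ T i then 3 else 1) *
      ((univ : Finset (Fin 3)).filter fun c => ∀ i, j ∈ T i → c ≠ i).card := by
    intro j
    by_cases h : ∃ i, j ∈ T i
    · obtain ⟨i, hi⟩ := h
      have h3 : 3 ≤ ∏ i : Fin 3, if j ∈ T i then 3 else 1 := by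
        have h4 : (if j ∈ T i then 3 else 1) ∣ ∏ i : Fin 3, if j ∈ T i then 3 else 1 :=
          Finset.dvd_prod_of_mem _ (mem_univ i)
        rw [if_pos hi] at h4
        refine Nat.le_of_dvd ?_ h4
        apply Finset.prod_pos
        intro i _
        split_ifs <;> norm_num
      have h5 : 1 ≤ ((univ : Finset (Fin 3)).filter fun c => ∀ i, j ∈ T i → c ≠ i).card := by
        rw [Nat.one_le_iff_ne_zero, ← Nat.pos_iff_ne_zero, Finset.card_pos]
        push Not at hno
        obtain ⟨i0, hi0⟩ := hno j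
        refine ⟨i0, mem_filter.2 ⟨mem_univ _, fun i hi h => ?_⟩⟩
        subst h
        exact hi0 hi
      calc 3 = 3 * 1 := rfl
        _ ≤ _ := Nat.mul_le_mul h3 h5
    · push Not at h
      have h3 : (univ : Finset (Fin 3)).filter (fun c => ∀ i, j ∈ T i → c ≠ i) = univ := by
        apply Finset.filter_true_of_mem
        intro c _ i hi
        exact absurd hi (h i)
      have h4 : (∏ i : Fin 3, if j ∈ T i then 3 else 1) = 1 := by
        apply Finset.prod_eq_one
        intro i _
        rw [if_neg (h i)]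
      rw [h3, h4, card_univ, Fintype.card_fin]
  calc 3 ^ s = ∏ _j : Fin s, 3 := by rw [Finset.prod_const, card_univ, Fintype.card_fin]
    _ ≤ ∏ j : Fin s, ((∏ i : Fin 3, if j ∈ T i then 3 else 1) *
        ((univ : Finset (Fin 3)).filter fun c => ∀ i, j ∈ T i → c ≠ i).card) :=
        Finset.prod_le_prod' fun j _ => h2 j
    _ = (∏ j : Fin s, ∏ i : Fin 3, if j ∈ T i then 3 else 1) *
        ∏ j : Fin s, ((univ : Finset (Fin 3)).filter fun c => ∀ i, j ∈ T i → c ≠ i).card :=
        Finset.prod_mul_distrib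
    _ ≤ _ := by
        apply Nat.mul_le_mul_right
        rw [Finset.prod_comm]
        calc ∏ i : Fin 3, ∏ j : Fin s, (if j ∈ T i then 3 else 1) =
              ∏ i : Fin 3, 3 ^ (T i).card := by
              refine Finset.prod_congr rfl fun i _ => ?_
              rw [Finset.prod_ite, Finset.prod_const, Finset.prod_const_one, mul_one]
              congr 2
              ext j
              simp
          _ ≤ ∏ _i : Fin 3, 3 ^ r' :=
              Finset.prod_le_prod' fun i _ => Nat.pow_le_pow_right (by norm_num) (hT i)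
          _ = 27 ^ r' := by
              rw [Finset.prod_const, card_univ, Fintype.card_fin, ← pow_mul, mul_comm, pow_mul]
              norm_num

/-- **Edge-disjoint triangles.** -/
theorem disjoint_family (H : Finset (Fin 3 → Fin m)) : ∃ F ⊆ H,
    (∀ P ∈ F, ∀ Q ∈ F, ∀ i, edge P i = edge Q i → P = Q) ∧ H.card ≤ 3 * m * F.card := by
  classical
  obtain ⟨F, hF, hmax⟩ := Finset.exists_max_image (H.powerset.filter fun F =>
    ∀ P ∈ F, ∀ Q ∈ F, ∀ i, edge P i = edge Q i → P = Q) (fun F => F.card)
    ⟨∅, mem_filter.2 ⟨mem_powerset.2 (empty_subset _), by simp⟩⟩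
  rw [mem_filter, mem_powerset] at hF
  refine ⟨F, hF.1, hF.2, ?_⟩
  have h1 : H ⊆ F.biUnion fun Q => (univ : Finset (Fin 3)).biUnion fun i =>
      (univ : Finset (Fin 3 → Fin m)).filter fun P => edge P (edge Q i).1 = edge Q i := by
    intro P hP
    by_contra hcon
    have h2 : ∀ Q ∈ F, ∀ i, edge P i ≠ edge Q i := by
      intro Q hQ i h
      apply hcon
      rw [mem_biUnion]
      refine ⟨Q, hQ, ?_⟩
      rw [mem_biUnion]
      exact ⟨i, mem_univ _, mem_filter.2 ⟨mem_univ _, h⟩⟩
    have h3 : P ∉ F := fun h => h2 P h 0 rfl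
    have h4 := hmax (insert P F) (mem_filter.2 ⟨mem_powerset.2
      (insert_subset hP hF.1), ?_⟩)
    · rw [card_insert_of_notMem h3] at h4
      omega
    · intro Q hQ Q' hQ' i h
      rcases mem_insert.1 hQ with hQ1 | hQ1
      · rcases mem_insert.1 hQ' with hQ2 | hQ2
        · rw [hQ1, hQ2]
        · rw [hQ1] at h
          exact absurd h (h2 _ hQ2 i)
      · rcases mem_insert.1 hQ' with hQ2 | hQ2
        · rw [hQ2] at h
          exact absurd h.symm (h2 _ hQ1 i)
        · exact hF.2 _ hQ1 _ hQ2 i h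
  refine (card_le_card h1).trans (card_biUnion_le.trans ?_)
  calc _ ≤ ∑ _Q ∈ F, 3 * m := by
        refine Finset.sum_le_sum fun Q _ => card_biUnion_le.trans ?_
        calc _ ≤ ∑ _i : Fin 3, m := Finset.sum_le_sum fun i _ => card_through (edge Q i)
          _ = 3 * m := by rw [Finset.sum_const, card_univ, Fintype.card_fin, smul_eq_mul]
    _ = 3 * m * F.card := by rw [Finset.sum_const, smul_eq_mul, mul_comm]

/-- **Selection.** -/
theorem select {s r' ρ R : ℕ} (hm : 0 < m) (T : Var m → Finset (Fin s)) (bad : Finset (Var m))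
    (hT : ∀ v, v ∉ bad → (T v).card ≤ r') (hbad : 4 * bad.card ≤ m ^ 2)
    (hw : ∀ j, ((univ : Finset (Var m)).filter fun v => j ∈ T v).card ≤ ρ ^ 2)
    (hR : ∑ v, (T v).card ≤ R) (hρ : 4 * (ρ * R) ≤ m ^ 3) :
    ∃ (col : Fin s → Fin 3) (F : Finset (Fin 3 → Fin m)),
      (∀ P ∈ F, ∀ i, edge P i ∉ bad ∧ ∀ j ∈ T (edge P i), col j ≠ i) ∧
      (∀ P ∈ F, ∀ Q ∈ F, ∀ i, edge P i = edge Q i → P = Q) ∧
      m ^ 2 ≤ 6 * (27 ^ r' * F.card) := by
  classical
  -- good triangles
  obtain ⟨G, hG⟩ : ∃ G, G = (univ : Finset (Fin 3 → Fin m)).filter fun P =>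
    (∀ i, edge P i ∉ bad) ∧ ¬ ∃ j, ∀ i, j ∈ T (edge P i) := ⟨_, rfl⟩
  have hGc : m ^ 3 ≤ 2 * G.card := by
    obtain ⟨H1, hH1⟩ : ∃ H1, H1 = bad.biUnion fun v =>
      (univ : Finset (Fin 3 → Fin m)).filter fun P => edge P v.1 = v := ⟨_, rfl⟩
    obtain ⟨H2, hH2⟩ : ∃ H2, H2 = (univ : Finset (Fin s)).biUnion fun j =>
      (univ : Finset (Fin 3 → Fin m)).filter fun P => ∀ i, j ∈ T (edge P i) := ⟨_, rfl⟩
    have h1 : (univ : Finset (Fin 3 → Fin m)) ⊆ G ∪ (H1 ∪ H2) := by
      intro P _
      rw [mem_union, mem_union, hG, mem_filter]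
      by_cases h2 : ∀ i, edge P i ∉ bad
      · by_cases h3 : ∃ j, ∀ i, j ∈ T (edge P i)
        · right; right
          obtain ⟨j, hj⟩ := h3
          rw [hH2, mem_biUnion]
          exact ⟨j, mem_univ _, mem_filter.2 ⟨mem_univ _, hj⟩⟩
        · left
          exact ⟨mem_univ _, h2, h3⟩
      · right; left
        push Not at h2
        obtain ⟨i, hi⟩ := h2
        rw [hH1, mem_biUnion]
        exact ⟨edge P i, hi, mem_filter.2 ⟨mem_univ _, rfl⟩⟩
    have h2 : H1.card ≤ bad.card * m := by
      rw [hH1]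
      exact card_biUnion_le_card_mul _ _ _ fun v _ => card_through v
    have h3 : H2.card ≤ ρ * R := by
      rw [hH2]
      refine card_biUnion_le.trans ?_
      calc _ ≤ ∑ j : Fin s, ρ * ((univ : Finset (Var m)).filter fun v => j ∈ T v).card := by
            refine Finset.sum_le_sum fun j _ => ?_
            apply loomis' _ _ _ (hw j)
            intro P hP i
            exact mem_filter.2 ⟨mem_univ _, (mem_filter.1 hP).2 i⟩
        _ = ρ * ∑ v, (T v).card := by
            rw [← Finset.mul_sum]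
            congr 1
            have h4 : ∀ j : Fin s, ((univ : Finset (Var m)).filter fun v => j ∈ T v).card =
                ∑ v : Var m, if j ∈ T v then 1 else 0 := by
              intro j
              rw [Finset.card_filter]
            rw [Finset.sum_congr rfl fun j _ => h4 j, Finset.sum_comm]
            refine Finset.sum_congr rfl fun v _ => ?_
            rw [← Finset.card_filter]
            congr 1
            ext j
            simp
        _ ≤ ρ * R := Nat.mul_le_mul_left _ hR
    have h4 := (card_le_card h1).trans ((card_union_le _ _).trans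
      (Nat.add_le_add_left (card_union_le _ _) _))
    rw [card_univ, Fintype.card_fun, Fintype.card_fin, Fintype.card_fin] at h4
    have h5 : 4 * (bad.card * m) ≤ m ^ 3 := by
      calc 4 * (bad.card * m) = 4 * bad.card * m := by ring
        _ ≤ m ^ 2 * m := Nat.mul_le_mul_right _ hbad
        _ = m ^ 3 := by ring
    omega
  -- the average
  obtain ⟨Sp, hSp⟩ : ∃ Sp : (Fin s → Fin 3) → Finset (Fin 3 → Fin m), ∀ col, Sp col =
    G.filter fun P => ∀ i, ∀ j ∈ T (edge P i), col j ≠ i := ⟨_, fun _ => rfl⟩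
  have hav : ∃ col, G.card ≤ 27 ^ r' * (Sp col).card := by
    by_contra hcon
    push Not at hcon
    have h1 : ∀ P ∈ G, 3 ^ s ≤ 27 ^ r' * ((univ : Finset (Fin s → Fin 3)).filter fun col =>
        ∀ i, ∀ j ∈ T (edge P i), col j ≠ i).card := by
      intro P hP
      rw [hG, mem_filter] at hP
      exact card_colourings (fun i => T (edge P i)) (fun i => hT _ (hP.2.1 i)) hP.2.2
    have h2 : G.card * 3 ^ s ≤ 27 ^ r' * ∑ col, (Sp col).card := by
      calc G.card * 3 ^ s = ∑ _P ∈ G, 3 ^ s := by rw [Finset.sum_const, smul_eq_mul]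
        _ ≤ ∑ P ∈ G, 27 ^ r' * ((univ : Finset (Fin s → Fin 3)).filter fun col =>
            ∀ i, ∀ j ∈ T (edge P i), col j ≠ i).card := Finset.sum_le_sum h1
        _ = 27 ^ r' * ∑ col, (Sp col).card := by
            rw [← Finset.mul_sum]
            congr 1
            have h3 : ∀ P : Fin 3 → Fin m, ((univ : Finset (Fin s → Fin 3)).filter fun col =>
                ∀ i, ∀ j ∈ T (edge P i), col j ≠ i).card = ∑ col : Fin s → Fin 3,
                  if ∀ i, ∀ j ∈ T (edge P i), col j ≠ i then 1 else 0 := by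
              intro P
              rw [Finset.card_filter]
            rw [Finset.sum_congr rfl fun P _ => h3 P, Finset.sum_comm]
            refine Finset.sum_congr rfl fun col _ => ?_
            rw [hSp, Finset.card_filter]
    have h3 : 27 ^ r' * ∑ col, (Sp col).card < G.card * 3 ^ s := by
      rw [Finset.mul_sum]
      calc _ < ∑ _col : Fin s → Fin 3, G.card :=
            Finset.sum_lt_sum_of_nonempty ⟨fun _ => 0, mem_univ _⟩ fun col _ => hcon col
        _ = G.card * 3 ^ s := by
            rw [Finset.sum_const, card_univ, Fintype.card_fun, Fintype.card_fin, Fintype.card_fin,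
              smul_eq_mul, mul_comm]
    omega
  obtain ⟨col, hcol⟩ := hav
  obtain ⟨F, hF1, hF2, hF3⟩ := disjoint_family (Sp col)
  refine ⟨col, F, ?_, hF2, ?_⟩
  · intro P hP i
    have h1 := hF1 hP
    rw [hSp, mem_filter, hG, mem_filter] at h1
    exact ⟨h1.1.2.1 i, h1.2 i⟩
  · have h1 : m * m ^ 2 ≤ m * (6 * (27 ^ r' * F.card)) := by
      calc m * m ^ 2 = m ^ 3 := by ring
        _ ≤ 2 * (27 ^ r' * (3 * m * F.card)) := by
            calc m ^ 3 ≤ 2 * G.card := hGc
              _ ≤ 2 * (27 ^ r' * (Sp col).card) := Nat.mul_le_mul_left _ hcol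
              _ ≤ _ := by gcongr
        _ = _ := by ring
    exact Nat.le_of_mul_le_mul_left h1 hm

end sel

end Pool.Agent.K1H36.NF
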