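import Pool.Agent.K1H36.TW.Main
import Pool.Agent.K1H36.NF.Sel
import Pool.Agent.K1H36.NF.Cover

/-!
# The instances of Exact Triangle
-/

set_option autoImplicit false

open Finset

namespace Pool.Agent.K1H36.NF

open Pool.Agent.K1H36.TW

/-- The numbers of the blocks and the cells of the blocks. -/
abbrev Ix (k : ℕ) := Fin k × Fin 512 × Fin 512

section inst

variable {m k : ℕ} (σ : Ix k → Fin 3 → Fin m)

/-- The number of a triangle. -/
noncomputable def num (T : Fin 3 → Fin m) : ℤ := ((Fintype.equivFin (Fin 3 → Fin m) T : ℕ) : ℤ)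

theorem num_nonneg (T : Fin 3 → Fin m) : 0 ≤ num T := Int.natCast_nonneg _

theorem num_lt (T : Fin 3 → Fin m) : num T < (m : ℤ) ^ 3 := by
  have h := (Fintype.equivFin (Fin 3 → Fin m) T).2
  have h2 : Fintype.card (Fin 3 → Fin m) = m ^ 3 := by
    rw [Fintype.card_fun, Fintype.card_fin, Fintype.card_fin]
  have h3 := lt_of_lt_of_eq h h2
  unfold num
  exact_mod_cast h3

theorem num_inj {T T' : Fin 3 → Fin m} (h : num T = num T') : T = T' := by
  unfold num at h
  have h1 : (Fintype.equivFin (Fin 3 → Fin m) T : ℕ) = Fintype.equivFin (Fin 3 → Fin m) T' := by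
    exact_mod_cast h
  exact (Fintype.equivFin (Fin 3 → Fin m)).injective (Fin.ext h1)

open Classical in
/-- The weights. -/
noncomputable def val (z : Zt k 512) (s t : St k 512) (v : Var m) : ℤ :=
  if h : ∃ u, edge (σ u) v.1 = v then
    (if v.1 = 0 then (if z h.choose.1 h.choose.2 then 0 else (m : ℤ) ^ 3)
    else if v.1 = 1 then (if h.choose.2.1 = s h.choose.1 then num (σ h.choose) else (m : ℤ) ^ 3)
    else (if h.choose.2.2 = t h.choose.1 then - num (σ h.choose) else (m : ℤ) ^ 3))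
  else (m : ℤ) ^ 3

variable (hσ : ∀ u u' i, edge (σ u) i = edge (σ u') i → u = u')

include hσ

theorem val0 (z : Zt k 512) (s t : St k 512) (u : Ix k) :
    val σ z s t (edge (σ u) 0) = if z u.1 u.2 then 0 else (m : ℤ) ^ 3 := by
  have h : ∃ u', edge (σ u') (edge (σ u) 0).1 = edge (σ u) 0 := ⟨u, rfl⟩
  have h1 : h.choose = u := hσ _ _ 0 h.choose_spec
  have h2 : (edge (σ u) 0).1 = 0 := rfl
  unfold val
  rw [dif_pos h, if_pos h2, h1]

theorem val1 (z : Zt k 512) (s t : St k 512) (u : Ix k) :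
    val σ z s t (edge (σ u) 1) = if u.2.1 = s u.1 then num (σ u) else (m : ℤ) ^ 3 := by
  have h : ∃ u', edge (σ u') (edge (σ u) 1).1 = edge (σ u) 1 := ⟨u, rfl⟩
  have h1 : h.choose = u := hσ _ _ 1 h.choose_spec
  have h2 : ¬ (edge (σ u) 1).1 = 0 := by
    change ¬ (1 : Fin 3) = 0
    decide
  have h3 : (edge (σ u) 1).1 = 1 := rfl
  unfold val
  rw [dif_pos h, if_neg h2, if_pos h3, h1]

theorem val2 (z : Zt k 512) (s t : St k 512) (u : Ix k) :
    val σ z s t (edge (σ u) 2) = if u.2.2 = t u.1 then - num (σ u) else (m : ℤ) ^ 3 := by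
  have h : ∃ u', edge (σ u') (edge (σ u) 2).1 = edge (σ u) 2 := ⟨u, rfl⟩
  have h1 : h.choose = u := hσ _ _ 2 h.choose_spec
  have h2 : ¬ (edge (σ u) 2).1 = 0 := by
    change ¬ (2 : Fin 3) = 0
    decide
  have h3 : ¬ (edge (σ u) 2).1 = 1 := by
    change ¬ (2 : Fin 3) = 1
    decide
  unfold val
  rw [dif_pos h, if_neg h2, if_neg h3, h1]

omit hσ in
theorem val_none (z : Zt k 512) (s t : St k 512) (v : Var m) (h : ¬ ∃ u, edge (σ u) v.1 = v) :
    val σ z s t v = (m : ℤ) ^ 3 := by
  unfold val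
  rw [dif_neg h]

/-- **The yes-instances.** -/
theorem zero_sum_iff (z : Zt k 512) (s t : St k 512) :
    (∃ T : Fin 3 → Fin m, ∑ i, val σ z s t (i, T i, T (i + 1)) = 0) ↔ ¬ Zero z s t := by
  have hm0 : (0 : ℤ) ≤ (m : ℤ) ^ 3 := by positivity
  have e0 : (0 : Fin 3) + 1 = 1 := by decide
  have e1 : (1 : Fin 3) + 1 = 2 := by decide
  have e2 : (2 : Fin 3) + 1 = 0 := by decide
  constructor
  · rintro ⟨T, hT⟩ hzero
    have hm : (0 : ℤ) < (m : ℤ) ^ 3 := by
      have : 0 < m := (T 0).pos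
      positivity
    have hT' : val σ z s t (edge T 0) + val σ z s t (edge T 1) + val σ z s t (edge T 2) = 0 := by
      rw [← hT, Fin.sum_univ_three]
      rfl
    -- signs
    have b0 : 0 ≤ val σ z s t (edge T 0) := by
      by_cases h : ∃ u, edge (σ u) (edge T 0).1 = edge T 0
      · obtain ⟨u, hu⟩ := h
        have hu' : edge (σ u) 0 = edge T 0 := hu
        rw [← hu', val0 σ hσ]
        split_ifs
        · exact le_refl _
        · exact hm0
      · rw [val_none σ z s t _ h]
        exact hm0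
    have b1 : 0 ≤ val σ z s t (edge T 1) := by
      by_cases h : ∃ u, edge (σ u) (edge T 1).1 = edge T 1
      · obtain ⟨u, hu⟩ := h
        have hu' : edge (σ u) 1 = edge T 1 := hu
        rw [← hu', val1 σ hσ]
        split_ifs
        · exact num_nonneg _
        · exact hm0
      · rw [val_none σ z s t _ h]
        exact hm0
    -- the edge number 2
    have c2 : ∃ u : Ix k, edge (σ u) 2 = edge T 2 ∧ u.2.2 = t u.1 ∧
        val σ z s t (edge T 2) = - num (σ u) := by
      by_contra hcon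
      push Not at hcon
      have h2 : val σ z s t (edge T 2) = (m : ℤ) ^ 3 := by
        by_cases h : ∃ u, edge (σ u) (edge T 2).1 = edge T 2
        · obtain ⟨u, hu⟩ := h
          have hu' : edge (σ u) 2 = edge T 2 := hu
          by_cases h3 : u.2.2 = t u.1
          · exact absurd (by rw [← hu', val2 σ hσ, if_pos h3]) (hcon u hu' h3)
          · rw [← hu', val2 σ hσ, if_neg h3]
        · exact val_none σ z s t _ h
      rw [h2] at hT'
      linarith
    obtain ⟨u2, g1, g2, g3⟩ := c2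
    have c1 : ∃ u : Ix k, edge (σ u) 1 = edge T 1 ∧ u.2.1 = s u.1 ∧
        val σ z s t (edge T 1) = num (σ u) := by
      by_contra hcon
      push Not at hcon
      have h2 : val σ z s t (edge T 1) = (m : ℤ) ^ 3 := by
        by_cases h : ∃ u, edge (σ u) (edge T 1).1 = edge T 1
        · obtain ⟨u, hu⟩ := h
          have hu' : edge (σ u) 1 = edge T 1 := hu
          by_cases h3 : u.2.1 = s u.1
          · exact absurd (by rw [← hu', val1 σ hσ, if_pos h3]) (hcon u hu' h3)
          · rw [← hu', val1 σ hσ, if_neg h3]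
        · exact val_none σ z s t _ h
      rw [h2, g3] at hT'
      have := num_lt (σ u2)
      linarith
    obtain ⟨u1, f1, f2, f3⟩ := c1
    have c0 : ∃ u : Ix k, edge (σ u) 0 = edge T 0 ∧ z u.1 u.2 = true ∧
        val σ z s t (edge T 0) = 0 := by
      by_contra hcon
      push Not at hcon
      have h2 : val σ z s t (edge T 0) = (m : ℤ) ^ 3 := by
        by_cases h : ∃ u, edge (σ u) (edge T 0).1 = edge T 0
        · obtain ⟨u, hu⟩ := h
          have hu' : edge (σ u) 0 = edge T 0 := hu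
          by_cases h3 : z u.1 u.2 = true
          · exact absurd (by rw [← hu', val0 σ hσ, if_pos h3]) (hcon u hu' h3)
          · rw [← hu', val0 σ hσ, if_neg h3]
        · exact val_none σ z s t _ h
      rw [h2, g3, f3] at hT'
      have := num_lt (σ u2)
      have := num_nonneg (σ u1)
      linarith
    obtain ⟨u0, d1, d2, d3⟩ := c0
    rw [g3, f3, d3] at hT'
    have h12 : σ u1 = σ u2 := num_inj (by linarith)
    obtain ⟨p1, p2⟩ := edge_inj g1
    obtain ⟨q1, q2⟩ := edge_inj f1
    have hTu : T = σ u2 := by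
      funext i
      fin_cases i
      · exact p2.symm
      · exact (q1.symm.trans (congrFun h12 1))
      · exact p1.symm
    have hu12 : u1 = u2 := hσ u1 u2 0 (by rw [h12])
    have hu02 : u0 = u2 := hσ u0 u2 0 (by rw [d1, hTu])
    subst hu12
    subst hu02
    have h4 : u0.2 = (s u0.1, t u0.1) := Prod.ext f2 g2
    have h5 := hzero u0.1
    rw [← h4, d2] at h5
    exact absurd h5 (by simp)
  · intro h
    unfold Zero at h
    push Not at h
    obtain ⟨b, hb⟩ := h
    have hb' : z b (s b, t b) = true := by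
      cases h1 : z b (s b, t b)
      · exact absurd h1 hb
      · rfl
    refine ⟨σ (b, s b, t b), ?_⟩
    rw [Fin.sum_univ_three]
    have v0 := val0 σ hσ z s t (b, s b, t b)
    have v1 := val1 σ hσ z s t (b, s b, t b)
    have v2 := val2 σ hσ z s t (b, s b, t b)
    rw [if_pos hb'] at v0
    rw [if_pos rfl] at v1
    rw [if_pos rfl] at v2
    unfold edge at v0 v1 v2
    rw [v0, v1, v2]
    ring

omit hσ in
theorem val_bound (z : Zt k 512) (s t : St k 512) (v : Var m) : |val σ z s t v| ≤ (m : ℤ) ^ 3 := by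
  have hm0 : (0 : ℤ) ≤ (m : ℤ) ^ 3 := by positivity
  have h1 : |(m : ℤ) ^ 3| ≤ (m : ℤ) ^ 3 := by rw [abs_of_nonneg hm0]
  have h2 : |(0 : ℤ)| ≤ (m : ℤ) ^ 3 := by rw [abs_zero]; exact hm0
  have h3 : ∀ T : Fin 3 → Fin m, |num T| ≤ (m : ℤ) ^ 3 := by
    intro T
    rw [abs_of_nonneg (num_nonneg T)]
    exact (num_lt T).le
  have h4 : ∀ T : Fin 3 → Fin m, |- num T| ≤ (m : ℤ) ^ 3 := by
    intro T
    rw [abs_neg]
    exact h3 T
  unfold val
  split_ifs <;> first | exact h1 | exact h2 | exact h3 _ | exact h4 _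

/-! Where the inputs are written. -/

omit hσ in
theorem val_indep (z z' : Zt k 512) (s s' t t' : St k 512) (v : Var m)
    (h0 : v.1 = 0 → (∃ u, edge (σ u) 0 = v) → z = z')
    (h1 : v.1 = 1 → (∃ u, edge (σ u) 1 = v) → s = s')
    (h2 : v.1 = 2 → (∃ u, edge (σ u) 2 = v) → t = t') :
    val σ z s t v = val σ z' s' t' v := by
  by_cases h : ∃ u, edge (σ u) v.1 = v
  · obtain ⟨i, p, q⟩ := v
    unfold val
    rw [dif_pos h, dif_pos h]
    simp only at h h0 h1 h2 ⊢
    fin_cases i
    · have e := h0 rfl h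
      subst e
      rfl
    · have e := h1 rfl h
      subst e
      rfl
    · have e := h2 rfl h
      subst e
      rfl
  · rw [val_none σ z s t v h, val_none σ z' s' t' v h]

end inst

/-! ### Matrices as inputs -/

section matrix

variable {n m k : ℕ} [NeZero m]

/-- An input is a valid instance of Exact Triangle. -/
def Valid (n : ℕ) (x : Fin n × Fin n → Bool × ℤ) : Prop :=
  IsInstance n (fun i j => (x (i, j)).1) (fun i j => (x (i, j)).2)

/-- An input is a yes-instance. -/
def Yes (n : ℕ) (x : Fin n × Fin n → Bool × ℤ) : Prop :=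
  HasZeroTriangle (fun i j => (x (i, j)).1) (fun i j => (x (i, j)).2)

/-- The input with given weights. -/
noncomputable def inp (m : ℕ) [NeZero m] (w : Var m → ℤ) (c : Fin n × Fin n) : Bool × ℤ :=
  (flg m c.1 c.2, wt w c.1 c.2)

theorem inp_valid (w : Var m → ℤ) (hw : ∀ v, |w v| ≤ (n : ℤ) ^ 300) : Valid n (inp m w) :=
  isInstance_wt w hw

theorem inp_yes (hm : 3 * m ≤ n) (w : Var m → ℤ) :
    Yes n (inp m w) ↔ ∃ T : Fin 3 → Fin m, ∑ i, w (i, T i, T (i + 1)) = 0 :=
  ⟨exists_of_zero w, fun ⟨T, hT⟩ => zero_of_exists hm w T hT⟩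

theorem pow_bound (hm : 3 * m ≤ n) : (m : ℤ) ^ 3 ≤ (n : ℤ) ^ 300 := by
  have hm0 : 0 < m := Nat.pos_of_ne_zero (NeZero.ne m)
  have h1 : (m : ℤ) ≤ n := by exact_mod_cast (by omega : m ≤ n)
  have h2 : (1 : ℤ) ≤ n := by exact_mod_cast (by omega : 1 ≤ n)
  calc (m : ℤ) ^ 3 ≤ (n : ℤ) ^ 3 := by gcongr
    _ ≤ (n : ℤ) ^ 300 := pow_le_pow_right₀ h2 (by norm_num)

/-- The weights agree at a cell. -/
theorem inp_congr (w w' : Var m → ℤ) (c : Fin n × Fin n)
    (h : ∀ v, (lab c.1 c.2 : Option (Var m)) = some v → w v = w' v) : inp m w c = inp m w' c := by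
  unfold inp
  rcases h1 : (lab c.1 c.2 : Option (Var m)) with _ | v
  · rw [wt_of_none h1, wt_of_none h1]
  · rw [wt_of_lab h1, wt_of_lab h1, h v h1]

end matrix

end Pool.Agent.K1H36.NF
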