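import Pool.Agent.Y631.WcB
import Pool.Agent.K1H36.NF.Cover

/-!
# Word circuits and three players on the forehead
-/

set_option autoImplicit false

open Finset

namespace Pool.Agent.K1H36.NF

open Pool.Agent.Y631.Wc

section mixing

variable {ι X Z : Type} (C : WCirc ι X Z)

/-- **Mixing** of three inputs: the gates of the colour `j` do not read the variables in `A j`. -/
theorem mixing3 {B : Finset (Fin C.size)} {part : Fin C.size → ℕ}
    (hpart : ∀ h g, C.Joined h g → h ∉ B → g ∉ B → part h = part g) (col : ℕ → Fin 3)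
    (A : Fin 3 → Set ι) (hB : ∀ g ∈ B, ∀ i, C.Reads g i → ∀ j, i ∉ A j)
    (hA : ∀ g, g ∉ B → ∀ i, C.Reads g i → i ∉ A (col (part g)))
    {c : {g // g ∈ C.plus B} → Z} {x : Fin 3 → ι → X} {y : ι → X}
    (hx : ∀ j, x j ∈ C.Cls B c) (hy : ∀ j i, i ∉ A j → y i = x j i) : y ∈ C.Cls B c := by
  classical
  choose v hv ho hvc using hx
  obtain ⟨u, hu⟩ : ∃ u : Fin C.size → Z, ∀ g, u g = v (col (part g)) g := ⟨_, fun _ => rfl⟩
  have hplus : ∀ (g : Fin C.size) (j : Fin 3), g ∈ C.plus B → u g = v j g := by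
    intro g j hg
    rw [hu]
    exact (hvc _ ⟨g, hg⟩).trans (hvc j ⟨g, hg⟩).symm
  refine ⟨u, fun g => ?_, ?_, ?_⟩
  · by_cases hgB : g ∈ B
    · have h1 : u g = v 0 g := hplus g 0 (C.sub_plus hgB)
      have h2 : (fun a => u (C.gsrc g a)) = (fun a => v 0 (C.gsrc g a)) := by
        funext a
        exact hplus _ 0 (C.joined_plus hgB ⟨a, rfl⟩)
      have h3 : (fun a => y (C.vsrc g a)) = (fun a => x 0 (C.vsrc g a)) := by
        funext a
        exact hy 0 _ (hB g hgB _ ⟨a, rfl⟩ 0)
      rw [h1, h2, h3]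
      exact hv 0 g
    · have h1 : u g = v (col (part g)) g := hu g
      have h2 : (fun a => u (C.gsrc g a)) = (fun a => v (col (part g)) (C.gsrc g a)) := by
        funext a
        by_cases h3 : C.gsrc g a ∈ C.plus B
        · exact hplus _ _ h3
        · rw [hu, hpart _ g ⟨a, rfl⟩ (fun h4 => h3 (C.sub_plus h4)) hgB]
      have h3 : (fun a => y (C.vsrc g a)) = (fun a => x (col (part g)) (C.vsrc g a)) := by
        funext a
        exact hy _ _ (hA g hgB _ ⟨a, rfl⟩)
      rw [h1, h2, h3]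
      exact hv _ g
  · rw [hu]
    exact ho _
  · intro g
    rw [hu]
    exact hvc _ g

/-- **The bounds.** Inputs `inst z s t` for which `F` says that the chosen cells are in none of the
sets; `z`, `s` and `t` are written at the places in `A 0`, `A 1` and `A 2`. -/
theorem bounds3 [Fintype Z] {B : Finset (Fin C.size)} {part : Fin C.size → ℕ}
    (hpart : ∀ h g, C.Joined h g → h ∉ B → g ∉ B → part h = part g) (col : ℕ → Fin 3)
    (A : Fin 3 → Set ι) (hB : ∀ g ∈ B, ∀ i, C.Reads g i → ∀ j, i ∉ A j)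
    (hA : ∀ g, g ∉ B → ∀ i, C.Reads g i → i ∉ A (col (part g))) {k L K : ℕ}
    (hL : 1 ≤ L) (hZ : Fintype.card Z ≤ L) (hK : (C.plus B).card ≤ K)
    (inst : Zt k 512 → St k 512 → St k 512 → ι → X)
    (i0 : ∀ z z' s t i, i ∉ A 0 → inst z s t i = inst z' s t i)
    (i1 : ∀ z s s' t i, i ∉ A 1 → inst z s t i = inst z s' t i)
    (i2 : ∀ z s t t' i, i ∉ A 2 → inst z s t i = inst z s t' i)
    (F Good : (ι → X) → Prop) (hgood : ∀ z s t, Good (inst z s t))
    (hF : ∀ z s t, F (inst z s t) ↔ Zero z s t) :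
    ((∀ x, Good x → (C.Accepts x ↔ F x)) → 2 ^ k ≤ L ^ K) ∧
    (C.Unambiguous → (∀ x, Good x → (C.Accepts x ↔ ¬ F x)) → 2 ^ k ≤ L ^ K + 1) := by
  classical
  have hcl : Fintype.card ({g // g ∈ C.plus B} → Z) ≤ L ^ K := by
    rw [Fintype.card_fun, Fintype.card_coe]
    exact (Nat.pow_le_pow_left hZ _).trans (Nat.pow_le_pow_right hL hK)
  have star : ∀ (c : {g // g ∈ C.plus B} → Z) z z' s s' t t', inst z' s t ∈ C.Cls B c →
      inst z s' t ∈ C.Cls B c → inst z s t' ∈ C.Cls B c → inst z s t ∈ C.Cls B c := by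
    intro c z z' s s' t t' h0 h1 h2
    refine mixing3 C hpart col A hB hA (c := c)
      (x := fun j => if j = 0 then inst z' s t else if j = 1 then inst z s' t else inst z s t')
      ?_ ?_
    · intro j
      fin_cases j
      · exact h0
      · exact h1
      · exact h2
    · intro j i hi
      fin_cases j
      · exact i0 z z' s t i hi
      · exact i1 z s s' t i hi
      · exact i2 z s t t' i hi
  have hacc : ∀ z s t, (∃ c, inst z s t ∈ C.Cls B c) ↔ C.Accepts (inst z s t) := by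
    intro z s t
    constructor
    · rintro ⟨c, v, hv, ho, -⟩
      exact ⟨v, hv, ho⟩
    · rintro ⟨v, hv, ho⟩
      exact ⟨fun g => v g.1, v, hv, ho, fun _ => rfl⟩
  refine ⟨fun hC => ?_, fun hU hC => ?_⟩
  · refine (cover_bound (fun c z s t => inst z s t ∈ C.Cls B c) star ?_).trans hcl
    intro z s t
    rw [hacc, hC _ (hgood z s t), hF]
  · refine (disjoint_bound (fun c z s t => inst z s t ∈ C.Cls B c) star ?_ ?_).trans
      (Nat.succ_le_succ hcl)
    · rintro c c' z s t ⟨v, hv, ho, hvc⟩ ⟨v', hv', ho', hvc'⟩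
      have h1 := hU _ v v' hv ho hv' ho'
      funext g
      rw [← hvc, ← hvc', h1]
    · intro z s t
      rw [hacc, hC _ (hgood z s t), hF]

end mixing

end Pool.Agent.K1H36.NF
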