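import Pool.Agent.K1H36.NF.Trade

/-!
# The superlinear bound
-/

set_option autoImplicit false

open Finset Filter

namespace Pool.Agent.K1H36.NF

open Pool.Agent.K1H36.TW Pool.Agent.Y631.Wc

theorem numeric (c κ : ℕ) (ε : ℝ) (hε : 0 < ε) (hε2 : ε ≤ 2) : ∃ n₀ : ℕ, 30 ≤ n₀ ∧ ∀ n ≥ n₀,
    ∀ r θ : ℕ, (r : ℝ) ≤ ε / 78 * Real.logb 2 n + 1 → (θ : ℝ) ≤ (n : ℝ) ^ (2 - ε) →
      (Nat.log 2 n + 1) * (c * (1026 * r ^ 3 * (κ + 1) * (θ + 1))) + 1 <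
        (n / 3) ^ 2 / 2 ^ (39 * r + 18) := by
  obtain ⟨D, hD⟩ : ∃ D : ℝ, D = 32 / ε + 1 := ⟨_, rfl⟩
  have hDpos : 0 < D := by rw [hD]; positivity
  obtain ⟨W, hW⟩ : ∃ W : ℝ, W = 2 ^ 61 * (2052 * c * (κ + 1) * D ^ 4 + 2) := ⟨_, rfl⟩
  have htend : Tendsto (fun m : ℕ => (m : ℝ) ^ (ε / 4)) atTop atTop :=
    (tendsto_rpow_atTop (by positivity)).comp tendsto_natCast_atTop_atTop
  obtain ⟨n₀, hn₀⟩ := (htend.eventually_gt_atTop W).exists_forall_of_atTop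
  refine ⟨max n₀ 30, le_max_right _ _, fun n hn r θ hr hθ => ?_⟩
  have hP := hn₀ n (le_trans (le_max_left _ _) hn)
  have hn30 : 30 ≤ n := le_trans (le_max_right _ _) hn
  have hm2 : (30 : ℝ) ≤ n := by exact_mod_cast hn30
  obtain ⟨x, hx⟩ : ∃ x : ℝ, x = n := ⟨_, rfl⟩
  rw [← hx] at hP hm2 hθ hr
  obtain ⟨P, hPd⟩ : ∃ P : ℝ, P = x ^ (ε / 4) := ⟨_, rfl⟩
  rw [← hPd] at hP
  have hx0 : (0 : ℝ) < x := by linarith
  have hx1 : (1 : ℝ) ≤ x := by linarith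
  obtain ⟨y, hy⟩ : ∃ y : ℝ, y = x ^ (ε / 16) := ⟨_, rfl⟩
  have hy1 : (1 : ℝ) ≤ y := by rw [hy]; exact Real.one_le_rpow hx1 (by positivity)
  have hP1 : (1 : ℝ) ≤ P := by rw [hPd]; exact Real.one_le_rpow hx1 (by positivity)
  have hyy : y ^ 4 = P := by
    rw [hPd, hy, ← Real.rpow_natCast, ← Real.rpow_mul hx0.le]
    congr 1
    push_cast
    ring
  have hlog2 : (1 / 2 : ℝ) < Real.log 2 := by
    have := Real.log_two_gt_d9
    linarith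
  have hlogx : 0 ≤ Real.log x := Real.log_nonneg hx1
  have hlogb0 : 0 ≤ Real.logb 2 x := Real.logb_nonneg (by norm_num) hx1
  have hlogb : Real.logb 2 x ≤ 32 / ε * y := by
    have h1 := Real.log_le_rpow_div hx0.le (show (0 : ℝ) < ε / 16 by positivity)
    have h2 : Real.logb 2 x ≤ 2 * Real.log x := by
      rw [Real.logb, div_le_iff₀ (by linarith)]
      nlinarith
    calc Real.logb 2 x ≤ 2 * Real.log x := h2
      _ ≤ 2 * (x ^ (ε / 16) / (ε / 16)) := by linarith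
      _ = _ := by rw [hy]; field_simp; ring
  have hlogD : Real.logb 2 x + 1 ≤ D * y := by
    rw [hD, add_mul, one_mul]
    linarith
  have hlam : ((Nat.log 2 n + 1 : ℕ) : ℝ) ≤ D * y := by
    refine le_trans ?_ hlogD
    push_cast
    have := Real.natLog_le_logb n 2
    rw [hx]
    push_cast at this
    linarith
  have hrD : (r : ℝ) ≤ D * y := by
    have : ε / 78 * Real.logb 2 x ≤ 1 * Real.logb 2 x := by
      apply mul_le_mul_of_nonneg_right _ hlogb0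
      linarith
    linarith
  have hr4 : ((Nat.log 2 n + 1 : ℕ) : ℝ) * (r : ℝ) ^ 3 ≤ D ^ 4 * P := by
    calc ((Nat.log 2 n + 1 : ℕ) : ℝ) * (r : ℝ) ^ 3 ≤ (D * y) * (D * y) ^ 3 := by gcongr
      _ = D ^ 4 * y ^ 4 := by ring
      _ = _ := by rw [hyy]
  have hx1e : (1 : ℝ) ≤ x ^ (2 - ε) := Real.one_le_rpow hx1 (by linarith)
  have hθ2 : (θ : ℝ) + 1 ≤ 2 * x ^ (2 - ε) := by linarith
  have hcK : ((Nat.log 2 n + 1 : ℕ) : ℝ) * (c * (1026 * (r : ℝ) ^ 3 * (κ + 1) * (θ + 1))) + 2 <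
      x ^ (2 - ε) * P ^ 2 / 2 ^ 61 := by
    have h1 : ((Nat.log 2 n + 1 : ℕ) : ℝ) * (c * (1026 * (r : ℝ) ^ 3 * (κ + 1) * (θ + 1))) ≤
        (c : ℝ) * (1026 * (D ^ 4 * P) * (κ + 1) * (2 * x ^ (2 - ε))) := by
      calc _ = (c : ℝ) * (1026 * (((Nat.log 2 n + 1 : ℕ) : ℝ) * (r : ℝ) ^ 3) * (κ + 1) *
            (θ + 1)) := by ring
        _ ≤ _ := by gcongr
    have h2 : x ^ (2 - ε) * P * W < x ^ (2 - ε) * P * P := by
      apply mul_lt_mul_of_pos_left hP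
      positivity
    have h3 : x ^ (2 - ε) * P * W / 2 ^ 61 =
        (c : ℝ) * (1026 * (D ^ 4 * P) * (κ + 1) * (2 * x ^ (2 - ε))) +
          2 * (x ^ (2 - ε) * P) := by
      rw [hW]
      ring
    have h4 : (1 : ℝ) ≤ x ^ (2 - ε) * P := by nlinarith
    have h5 : x ^ (2 - ε) * P * W / 2 ^ 61 < x ^ (2 - ε) * P ^ 2 / 2 ^ 61 := by
      apply div_lt_div_of_pos_right _ (by positivity)
      calc x ^ (2 - ε) * P * W < x ^ (2 - ε) * P * P := h2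
        _ = _ := by ring
    linarith
  -- the power of two
  have hd : ((2 : ℝ) ^ (39 * r + 18)) ≤ 2 ^ 57 * x ^ (ε / 2) := by
    have h1 : ((2 : ℝ) ^ (39 * r + 18)) = (2 : ℝ) ^ ((39 : ℝ) * r + 18) := by
      rw [← Real.rpow_natCast]
      congr 1
      push_cast
      ring
    have h2 : (2 : ℝ) ^ (Real.logb 2 x) = x := Real.rpow_logb (by norm_num) (by norm_num) hx0
    rw [h1]
    calc (2 : ℝ) ^ ((39 : ℝ) * r + 18) ≤ (2 : ℝ) ^ (57 + Real.logb 2 x * (ε / 2)) := by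
          apply Real.rpow_le_rpow_of_exponent_le (by norm_num)
          nlinarith
      _ = (2 : ℝ) ^ (57 : ℝ) * ((2 : ℝ) ^ (Real.logb 2 x)) ^ (ε / 2) := by
          rw [Real.rpow_add (by norm_num), Real.rpow_mul (by norm_num)]
      _ = _ := by
          rw [h2]
          norm_num
  have hdpos : (0 : ℝ) < 2 ^ (39 * r + 18) := by positivity
  have hquot : x ^ (2 - ε) * P ^ 2 / 2 ^ 61 ≤ (x / 4) ^ 2 / 2 ^ (39 * r + 18) := by
    have h1 : x ^ (2 - ε) * P ^ 2 * x ^ (ε / 2) = x ^ 2 := by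
      rw [hPd, ← Real.rpow_natCast (x ^ (ε / 4)), ← Real.rpow_mul hx0.le, ← Real.rpow_add hx0,
        ← Real.rpow_add hx0, ← Real.rpow_natCast x 2]
      congr 1
      push_cast
      ring
    rw [div_le_div_iff₀ (by positivity) hdpos]
    calc x ^ (2 - ε) * P ^ 2 * 2 ^ (39 * r + 18) ≤
        x ^ (2 - ε) * P ^ 2 * (2 ^ 57 * x ^ (ε / 2)) := by
          apply mul_le_mul_of_nonneg_left hd
          positivity
      _ = (x ^ (2 - ε) * P ^ 2 * x ^ (ε / 2)) * 2 ^ 57 := by ring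
      _ = _ := by rw [h1]; ring
  have hn3 : x / 4 ≤ ((n / 3 : ℕ) : ℝ) := by
    have h1 : n ≤ 4 * (n / 3) := by omega
    have h2 : (n : ℝ) ≤ 4 * ((n / 3 : ℕ) : ℝ) := by exact_mod_cast h1
    rw [hx]
    linarith
  have hquot2 : (x / 4) ^ 2 / 2 ^ (39 * r + 18) ≤ ((n / 3 : ℕ) : ℝ) ^ 2 / 2 ^ (39 * r + 18) := by
    apply div_le_div_of_nonneg_right _ hdpos.le
    exact pow_le_pow_left₀ (by positivity) hn3 2
  have hfloor : ((n / 3 : ℕ) : ℝ) ^ 2 / 2 ^ (39 * r + 18) <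
      (((n / 3) ^ 2 / 2 ^ (39 * r + 18) : ℕ) : ℝ) + 1 := by
    rw [div_lt_iff₀ hdpos]
    have h1 : (n / 3) ^ 2 < ((n / 3) ^ 2 / 2 ^ (39 * r + 18) + 1) * 2 ^ (39 * r + 18) := by
      have := Nat.lt_div_mul_add (a := (n / 3) ^ 2) (b := 2 ^ (39 * r + 18)) (by positivity)
      rw [add_mul, one_mul]
      exact this
    exact_mod_cast h1
  have hfin : (((Nat.log 2 n + 1) * (c * (1026 * r ^ 3 * (κ + 1) * (θ + 1))) + 1 : ℕ) : ℝ) <
      (((n / 3) ^ 2 / 2 ^ (39 * r + 18) : ℕ) : ℝ) := by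
    push_cast at hcK hfloor hquot2 ⊢
    linarith
  exact_mod_cast hfin

/-- The contradiction. -/
theorem no_bound {n c k K : ℕ} (hk : (Nat.log 2 n + 1) * (c * K) + 1 < k)
    (h : 2 ^ k ≤ (n ^ c) ^ K + 1) : False := by
  obtain ⟨l, hl⟩ : ∃ l, l = Nat.log 2 n + 1 := ⟨_, rfl⟩
  have h0 : n ≤ 2 ^ l := by
    rw [hl]
    exact (Nat.lt_pow_succ_log_self (by norm_num) n).le
  rw [← hl] at hk
  have h1 : (n ^ c) ^ K ≤ 2 ^ (l * (c * K)) := by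
    calc (n ^ c) ^ K = n ^ (c * K) := (pow_mul _ _ _).symm
      _ ≤ (2 ^ l) ^ (c * K) := Nat.pow_le_pow_left h0 _
      _ = 2 ^ (l * (c * K)) := (pow_mul _ _ _).symm
  have h2 : 1 ≤ 2 ^ (l * (c * K)) := Nat.one_le_pow _ _ (by norm_num)
  have h3 : 2 ^ (l * (c * K) + 2) ≤ 2 ^ k := Nat.pow_le_pow_right (by norm_num) hk
  rw [pow_add] at h3
  omega

/-- The choice of `r`. -/
theorem choose_r {n R : ℕ} {ε : ℝ} (hε : 0 < ε) (hn : 30 ≤ n)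
    (h : (R : ℝ) < ε / 1248 * (n ^ 2 * Real.logb 2 n)) :
    ∃ r : ℕ, 1 ≤ r ∧ R ≤ r * (n / 3) ^ 2 ∧ (r : ℝ) ≤ ε / 78 * Real.logb 2 n + 1 := by
  have hn0 : (1 : ℝ) ≤ n := by exact_mod_cast (by omega : 1 ≤ n)
  have hlog : 0 ≤ Real.logb 2 n := Real.logb_nonneg (by norm_num) hn0
  have h0 : 0 ≤ ε / 78 * Real.logb 2 n := mul_nonneg (by positivity) hlog
  have hn3 : (n : ℝ) ≤ 4 * ((n / 3 : ℕ) : ℝ) := by
    have h1 : n ≤ 4 * (n / 3) := by omega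
    exact_mod_cast h1
  refine ⟨⌊ε / 78 * Real.logb 2 n⌋₊ + 1, Nat.le_add_left _ _, ?_, ?_⟩
  · have h1 := Nat.lt_floor_add_one (ε / 78 * Real.logb 2 n)
    have h2 : (R : ℝ) ≤ (((⌊ε / 78 * Real.logb 2 n⌋₊ + 1) * (n / 3) ^ 2 : ℕ) : ℝ) := by
      push_cast
      calc (R : ℝ) ≤ ε / 1248 * (n ^ 2 * Real.logb 2 n) := h.le
        _ ≤ ε / 1248 * ((4 * ((n / 3 : ℕ) : ℝ)) ^ 2 * Real.logb 2 n) := by
            gcongr
        _ = ε / 78 * Real.logb 2 n * ((n / 3 : ℕ) : ℝ) ^ 2 := by ring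
        _ ≤ _ := by gcongr
    exact_mod_cast h2
  · push_cast
    have := Nat.floor_le h0
    linarith

/-- **The superlinear bound.** -/
theorem superlinear (c κ : ℕ) (ε : ℝ) (hε : 0 < ε) (hε2 : ε ≤ 2) : ∃ n₀ : ℕ, ∀ n ≥ n₀,
    ∀ (Z : Type) [Fintype Z], Fintype.card Z ≤ n ^ c →
      ∀ (C : WCirc (Fin n × Fin n) (Bool × ℤ) Z) (θ : ℕ), C.FanIn κ → C.TreewidthLE θ →
        (θ : ℝ) ≤ (n : ℝ) ^ (2 - ε) →
        ((∀ x, Valid n x → (C.Accepts x ↔ ¬ Yes n x)) ∨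
          (C.Unambiguous ∧ ∀ x, Valid n x → (C.Accepts x ↔ Yes n x))) →
        ε / 1248 * (n ^ 2 * Real.logb 2 n) ≤ C.reads := by
  obtain ⟨n₀, h30, hn₀⟩ := numeric (c + 1) κ ε hε hε2
  refine ⟨n₀, fun n hn Z _ hZ C θ hκ hθ hθn hC => ?_⟩
  by_contra hcon
  push Not at hcon
  obtain ⟨r, hr1, hr2, hr3⟩ := choose_r hε (by omega) hcon
  have hm : NeZero (n / 3) := ⟨by omega⟩
  have hn1 : 2 ≤ n := by omega
  have hL : 2 ≤ n ^ (c + 1) := by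
    calc 2 ≤ n := hn1
      _ = n ^ 1 := (pow_one n).symm
      _ ≤ n ^ (c + 1) := Nat.pow_le_pow_right (by omega) (by omega)
  have hZ2 : Fintype.card Z ≤ n ^ (c + 1) :=
    hZ.trans (Nat.pow_le_pow_right (by omega) (by omega))
  have h3 := tradeoff (m := n / 3) (n := n) (by omega) hr1 hL hZ2 C hκ hθ hr2
  apply no_bound (hn₀ n hn r θ hr3 hθn)
  rcases hC with hC | ⟨hU, hC⟩
  · exact (h3.1 hC).trans (Nat.le_succ _)
  · exact h3.2 hU hC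

end Pool.Agent.K1H36.NF
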