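import Pool.Agent.K1H36.NF.Inst
import Pool.Agent.K1H36.NF.Mix

/-!
# Treewidth and reads
-/

set_option autoImplicit false

open Finset

namespace Pool.Agent.K1H36.NF

open Pool.Agent.K1H36.TW Pool.Agent.Y631.Wc

section trade

variable {n m : ℕ} [NeZero m] {Z : Type}

open Classical in
/-- The parts in which an edge is read. -/
noncomputable def eparts (m : ℕ) [NeZero m] (C : WCirc (Fin n × Fin n) (Bool × ℤ) Z)
    (B : Finset (Fin C.size)) (part : Fin C.size → ℕ) (s : ℕ) (v : Var m) : Finset (Fin s) :=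
  (univ.filter fun c : Fin n × Fin n => (lab c.1 c.2 : Option (Var m)) = some v).biUnion
    (C.parts B part s)

theorem mem_eparts (C : WCirc (Fin n × Fin n) (Bool × ℤ) Z) (B : Finset (Fin C.size))
    (part : Fin C.size → ℕ) (s : ℕ) (v : Var m) (j : Fin s) : j ∈ eparts m C B part s v ↔
      ∃ c : Fin n × Fin n, (lab c.1 c.2 : Option (Var m)) = some v ∧
        ∃ g, g ∉ B ∧ part g = j.1 ∧ C.Reads g c := by
  classical
  unfold eparts
  rw [mem_biUnion]
  constructor
  · rintro ⟨c, hc, hj⟩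
    exact ⟨c, (mem_filter.1 hc).2, (C.mem_parts B part s c j).1 hj⟩
  · rintro ⟨c, hc, hj⟩
    exact ⟨c, mem_filter.2 ⟨mem_univ _, hc⟩, (C.mem_parts B part s c j).2 hj⟩

theorem sum_eparts (C : WCirc (Fin n × Fin n) (Bool × ℤ) Z) (B : Finset (Fin C.size))
    (part : Fin C.size → ℕ) (s : ℕ) : ∑ v, (eparts m C B part s v).card ≤ C.reads := by
  classical
  calc ∑ v, (eparts m C B part s v).card ≤
      ∑ v : Var m, ∑ c ∈ univ.filter (fun c : Fin n × Fin n =>
        (lab c.1 c.2 : Option (Var m)) = some v), (C.parts B part s c).card :=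
        Finset.sum_le_sum fun v _ => card_biUnion_le
    _ = ∑ v : Var m, ∑ c : Fin n × Fin n, if (lab c.1 c.2 : Option (Var m)) = some v then
        (C.parts B part s c).card else 0 :=
        Finset.sum_congr rfl fun v _ => Finset.sum_filter _ _
    _ = ∑ c : Fin n × Fin n, ∑ v : Var m, if (lab c.1 c.2 : Option (Var m)) = some v then
        (C.parts B part s c).card else 0 := Finset.sum_comm
    _ ≤ ∑ c : Fin n × Fin n, (C.parts B part s c).card := by
        refine Finset.sum_le_sum fun c _ => ?_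
        rcases h : (lab c.1 c.2 : Option (Var m)) with _ | v
        · simp
        · simp
    _ ≤ C.reads := C.sum_parts B part s univ

/-- **The split triangles.** -/
theorem split (C : WCirc (Fin n × Fin n) (Bool × ℤ) Z) {κ θ r K : ℕ} (hr : 1 ≤ r)
    (hκ : C.FanIn κ) (hθ : C.TreewidthLE θ) (hR : C.reads ≤ r * m ^ 2) (hm : 4 * r ≤ m)
    (hK : K = 1026 * r ^ 3 * (κ + 1) * (θ + 1)) :
    m ^ 2 ≤ 8 * K ∨ ∃ (B : Finset (Fin C.size)) (part : Fin C.size → ℕ) (col : ℕ → Fin 3)
      (F : Finset (Fin 3 → Fin m)), (C.plus B).card ≤ K ∧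
      (∀ h g, C.Joined h g → h ∉ B → g ∉ B → part h = part g) ∧
      (∀ g ∈ B, ∀ c : Fin n × Fin n, C.Reads g c → ∀ P ∈ F, ∀ i,
        (lab c.1 c.2 : Option (Var m)) ≠ some (edge P i)) ∧
      (∀ g, g ∉ B → ∀ c : Fin n × Fin n, C.Reads g c → ∀ P ∈ F,
        (lab c.1 c.2 : Option (Var m)) ≠ some (edge P (col (part g)))) ∧
      (∀ P ∈ F, ∀ Q ∈ F, ∀ i, edge P i = edge Q i → P = Q) ∧ m ^ 2 ≤ 2 ^ (39 * r) * F.card := by
  classical
  have hm0 : 0 < m := by omega
  obtain ⟨ρ, hρ⟩ : ∃ ρ, ρ = m / (4 * r) := ⟨_, rfl⟩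
  have h4r : 0 < 4 * r := by omega
  have hρ1 : 1 ≤ ρ := by
    rw [hρ]
    exact (Nat.le_div_iff_mul_le h4r).2 (by omega)
  have hρ2 : ρ * (4 * r) ≤ m := by
    rw [hρ]
    exact Nat.div_mul_le_self _ _
  have hρ3 : m ≤ 8 * r * ρ := by
    have h1 : m < (ρ + 1) * (4 * r) := by
      rw [hρ]
      have := Nat.lt_div_mul_add (a := m) h4r
      rw [add_mul, one_mul]
      exact this
    have h2 : (ρ + 1) * (4 * r) ≤ 2 * ρ * (4 * r) := Nat.mul_le_mul_right _ (by omega)
    calc m ≤ 2 * ρ * (4 * r) := by omega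
      _ = _ := by ring
  obtain ⟨s, B, part, h1, h2, h3, h4, h5⟩ : ∃ (s : ℕ) (B : Finset (Fin C.size))
      (part : Fin C.size → ℕ), ρ ^ 2 * s ≤ 8 * ∑ g, C.vars g + ρ ^ 2 ∧
      B.card ≤ s * (2 * (θ + 1)) ∧
      (∀ h g, C.skel.Joined h g → h ∉ B → g ∉ B → part h = part g) ∧ (∀ g, g ∉ B → part g < s) ∧
      ∀ c, ∑ g ∈ univ.filter (fun g => g ∉ B ∧ part g = c), C.vars g ≤ ρ ^ 2 :=
    C.skel.exists_parts θ (C.tw_skel hθ) C.vars (ρ ^ 2)
  have hs : s ≤ 513 * r ^ 3 := by
    have h6 : ρ ^ 2 * s ≤ ρ ^ 2 * (512 * r ^ 3 + 1) := by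
      calc ρ ^ 2 * s ≤ 8 * ∑ g, C.vars g + ρ ^ 2 := h1
        _ ≤ 8 * (r * m ^ 2) + ρ ^ 2 := by
            have : ∑ g, C.vars g ≤ r * m ^ 2 := hR
            omega
        _ ≤ 8 * (r * (8 * r * ρ) ^ 2) + ρ ^ 2 := by gcongr
        _ = _ := by ring
    have h7 := Nat.le_of_mul_le_mul_left h6 (by positivity)
    have h8 : 1 ≤ r ^ 3 := Nat.one_le_pow _ _ hr
    omega
  have hBK : (κ + 1) * B.card ≤ K := by
    calc (κ + 1) * B.card ≤ (κ + 1) * (513 * r ^ 3 * (2 * (θ + 1))) :=
          Nat.mul_le_mul_left _ (h2.trans (Nat.mul_le_mul_right _ hs))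
      _ = K := by rw [hK]; ring
  by_cases hbig : m ^ 2 ≤ 8 * K
  · exact Or.inl hbig
  right
  push Not at hbig
  obtain ⟨T, hT⟩ : ∃ T : Var m → Finset (Fin s), T = eparts m C B part s := ⟨_, rfl⟩
  have hTm : ∀ v j, j ∈ T v ↔ ∃ c : Fin n × Fin n, (lab c.1 c.2 : Option (Var m)) = some v ∧
        ∃ g, g ∉ B ∧ part g = j.1 ∧ C.Reads g c := by
    intro v j
    rw [hT]
    exact mem_eparts C B part s v j
  have hTs : ∑ v, (T v).card ≤ r * m ^ 2 := by
    rw [hT]
    exact (sum_eparts C B part s).trans hR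
  -- injection of edges into cells
  have hinj : ∀ (S : Finset (Fin C.size)) (Q : Var m → Prop) [DecidablePred Q],
      (∀ v, Q v → ∃ c : Fin n × Fin n, (lab c.1 c.2 : Option (Var m)) = some v ∧
        ∃ g ∈ S, C.Reads g c) → (univ.filter Q).card ≤ ∑ g ∈ S, C.vars g := by
    intro S Q _ hQ
    refine le_trans ?_ (C.card_readBy S (univ : Finset (Fin n × Fin n))
      (fun c => ∃ g ∈ S, C.Reads g c) (fun c _ h => h))
    have h6 : (univ.filter Q).image (some : Var m → Option (Var m)) ⊆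
        (univ.filter fun c : Fin n × Fin n => ∃ g ∈ S, C.Reads g c).image
          (fun c => (lab c.1 c.2 : Option (Var m))) := by
      intro u hu
      obtain ⟨v, hv, rfl⟩ := mem_image.1 hu
      obtain ⟨c, hc, hg⟩ := hQ v (mem_filter.1 hv).2
      exact mem_image.2 ⟨c, mem_filter.2 ⟨mem_univ _, hg⟩, hc⟩
    have h7 := card_le_card h6
    rw [card_image_of_injective _ (Option.some_injective _)] at h7
    exact h7.trans card_image_le
  obtain ⟨bad, hbad⟩ : ∃ bad : Finset (Var m), bad =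
      (univ.filter fun v => ∃ c : Fin n × Fin n, (lab c.1 c.2 : Option (Var m)) = some v ∧
        ∃ g ∈ B, C.Reads g c) ∪ univ.filter fun v => 8 * r - 1 < (T v).card := ⟨_, rfl⟩
  have hbadc : 4 * bad.card ≤ m ^ 2 := by
    have h6 : (univ.filter fun v : Var m => ∃ c : Fin n × Fin n,
        (lab c.1 c.2 : Option (Var m)) = some v ∧ ∃ g ∈ B, C.Reads g c).card ≤
          (κ + 1) * B.card := by
      refine (hinj B _ (fun v h => h)).trans ?_
      calc ∑ g ∈ B, C.vars g ≤ ∑ _g ∈ B, (κ + 1) :=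
            Finset.sum_le_sum (fun g _ =>
              le_trans (le_trans (Nat.le_add_right _ _) (hκ g)) (Nat.le_succ _))
        _ = (κ + 1) * B.card := by rw [Finset.sum_const, smul_eq_mul, mul_comm]
    have h7 : (univ.filter fun v : Var m => 8 * r - 1 < (T v).card).card * (8 * r) ≤
        r * m ^ 2 := by
      calc _ = ∑ _v ∈ univ.filter (fun v : Var m => 8 * r - 1 < (T v).card), (8 * r) := by
            rw [Finset.sum_const, smul_eq_mul]
        _ ≤ ∑ v ∈ univ.filter (fun v : Var m => 8 * r - 1 < (T v).card), (T v).card :=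
            Finset.sum_le_sum (fun v hv => by have := (mem_filter.1 hv).2; omega)
        _ ≤ ∑ v, (T v).card := Finset.sum_le_sum_of_subset (filter_subset _ _)
        _ ≤ _ := hTs
    have h8 : 8 * (univ.filter fun v : Var m => 8 * r - 1 < (T v).card).card ≤ m ^ 2 := by
      have h9 : r * (8 * (univ.filter fun v : Var m => 8 * r - 1 < (T v).card).card) ≤
          r * m ^ 2 := by
        calc _ = (univ.filter fun v : Var m => 8 * r - 1 < (T v).card).card * (8 * r) := by ring
          _ ≤ _ := h7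
      exact Nat.le_of_mul_le_mul_left h9 (by omega)
    have h9 := card_union_le (univ.filter fun v : Var m => ∃ c : Fin n × Fin n,
        (lab c.1 c.2 : Option (Var m)) = some v ∧ ∃ g ∈ B, C.Reads g c)
        (univ.filter fun v : Var m => 8 * r - 1 < (T v).card)
    rw [← hbad] at h9
    omega
  obtain ⟨col, F, f1, f2, f3⟩ := select (s := s) (r' := 8 * r - 1) (ρ := ρ) (R := r * m ^ 2) hm0 T
    bad
    (by
      intro v hv
      by_contra hcon
      push Not at hcon
      apply hv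
      rw [hbad, mem_union, mem_filter, mem_filter]
      exact Or.inr ⟨mem_univ _, hcon⟩)
    hbadc
    (by
      intro j
      refine le_trans (hinj (univ.filter fun g => g ∉ B ∧ part g = j.1) _ ?_) (h5 j.1)
      intro v hv
      obtain ⟨c, hc, g, hg1, hg2, hg3⟩ := (hTm v j).1 hv
      exact ⟨c, hc, g, mem_filter.2 ⟨mem_univ _, hg1, hg2⟩, hg3⟩)
    hTs
    (by
      calc 4 * (ρ * (r * m ^ 2)) = ρ * (4 * r) * m ^ 2 := by ring
        _ ≤ m * m ^ 2 := Nat.mul_le_mul_right _ hρ2
        _ = m ^ 3 := by ring)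
  refine ⟨B, part, fun j => if h : j < s then col ⟨j, h⟩ else 0, F, ?_, ?_, ?_, ?_, f2, ?_⟩
  · exact (C.card_plus B κ hκ).trans hBK
  · intro h g hj hh hg
    exact h3 h g ((C.joined_skel h g).2 hj) hh hg
  · intro g hg c hc P hP i hlab
    apply (f1 P hP i).1
    rw [hbad, mem_union, mem_filter]
    exact Or.inl ⟨mem_univ _, c, hlab, g, hg, hc⟩
  · intro g hg c hc P hP hlab
    have h6 : part g < s := h4 g hg
    simp only [dif_pos h6] at hlab
    exact (f1 P hP _).2 ⟨part g, h6⟩ ((hTm _ _).2 ⟨c, hlab, g, hg, rfl, hc⟩) rfl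
  · refine f3.trans ?_
    obtain ⟨q, hq⟩ : ∃ q, r = q + 1 := ⟨r - 1, by omega⟩
    subst hq
    have e1 : 8 * (q + 1) - 1 = 8 * q + 7 := by omega
    rw [e1]
    calc 6 * (27 ^ (8 * q + 7) * F.card) = (27 ^ 8) ^ q * (6 * 27 ^ 7) * F.card := by
          rw [pow_add, pow_mul]
          ring
      _ ≤ (2 ^ 39) ^ q * 2 ^ 39 * F.card := by
          apply Nat.mul_le_mul_right
          apply Nat.mul_le_mul
          · exact Nat.pow_le_pow_left (by norm_num) _
          · norm_num
      _ = 2 ^ (39 * (q + 1)) * F.card := by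
          rw [← pow_mul, ← pow_add]
          congr 2

/-- **Treewidth and reads.** -/
theorem tradeoff [Fintype Z] {κ θ r L : ℕ} (hn : 3 * m ≤ n) (hr : 1 ≤ r)
    (hL : 2 ≤ L) (hZ : Fintype.card Z ≤ L) (C : WCirc (Fin n × Fin n) (Bool × ℤ) Z)
    (hκ : C.FanIn κ) (hθ : C.TreewidthLE θ) (hR : C.reads ≤ r * m ^ 2) :
    ((∀ x, Valid n x → (C.Accepts x ↔ ¬ Yes n x)) →
      2 ^ (m ^ 2 / 2 ^ (39 * r + 18)) ≤ L ^ (1026 * r ^ 3 * (κ + 1) * (θ + 1))) ∧
    (C.Unambiguous → (∀ x, Valid n x → (C.Accepts x ↔ Yes n x)) →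
      2 ^ (m ^ 2 / 2 ^ (39 * r + 18)) ≤ L ^ (1026 * r ^ 3 * (κ + 1) * (θ + 1)) + 1) := by
  classical
  obtain ⟨K, hK⟩ : ∃ K, K = 1026 * r ^ 3 * (κ + 1) * (θ + 1) := ⟨_, rfl⟩
  obtain ⟨k, hk⟩ : ∃ k, k = m ^ 2 / 2 ^ (39 * r + 18) := ⟨_, rfl⟩
  rw [← hK, ← hk]
  have hL1 : 1 ≤ L := by omega
  have hpow : 2 ^ (39 * r + 18) = 2 ^ (39 * r) * 2 ^ 18 := pow_add _ _ _
  have hkm : k * 2 ^ (39 * r + 18) ≤ m ^ 2 := by
    rw [hk]
    exact Nat.div_mul_le_self _ _
  have htriv : k ≤ K → 2 ^ k ≤ L ^ K := fun h =>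
    (Nat.pow_le_pow_left hL _).trans (Nat.pow_le_pow_right hL1 h)
  by_cases hm : 4 * r ≤ m
  · rcases split C hr hκ hθ hR hm hK with h | ⟨B, part, col, F, h1, h2, h3, h4, h5, h6⟩
    · have h7 : k ≤ K := by
        have h8 : k * 8 ≤ k * 2 ^ (39 * r + 18) := by
          apply Nat.mul_le_mul_left
          calc 8 = 2 ^ 3 := by norm_num
            _ ≤ 2 ^ (39 * r + 18) := Nat.pow_le_pow_right (by norm_num) (by omega)
        omega
      exact ⟨fun _ => htriv h7, fun _ _ => (htriv h7).trans (Nat.le_succ _)⟩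
    · have h7 : Fintype.card (Ix k) ≤ Fintype.card {P // P ∈ F} := by
        rw [Fintype.card_coe, Fintype.card_prod, Fintype.card_prod, Fintype.card_fin,
          Fintype.card_fin]
        have h8 : 2 ^ (39 * r) * (k * (512 * 512)) ≤ 2 ^ (39 * r) * F.card := by
          calc _ = k * 2 ^ (39 * r + 18) := by rw [hpow]; ring
            _ ≤ m ^ 2 := hkm
            _ ≤ _ := h6
        exact Nat.le_of_mul_le_mul_left h8 (by positivity)
      obtain ⟨f⟩ := Function.Embedding.nonempty_of_card_le h7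
      obtain ⟨σ, hσ⟩ : ∃ σ : Ix k → Fin 3 → Fin m, ∀ u, σ u = (f u).1 := ⟨_, fun _ => rfl⟩
      have hσF : ∀ u, σ u ∈ F := fun u => by rw [hσ]; exact (f u).2
      have hσi : ∀ u u' i, edge (σ u) i = edge (σ u') i → u = u' := by
        intro u u' i h
        have h8 := h5 _ (hσF u) _ (hσF u') i h
        rw [hσ, hσ] at h8
        exact f.injective (Subtype.ext h8)
      obtain ⟨A, hA⟩ : ∃ A : Fin 3 → Set (Fin n × Fin n), ∀ i, A i =
        {c | ∃ u, (lab c.1 c.2 : Option (Var m)) = some (edge (σ u) i)} := ⟨_, fun _ => rfl⟩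
      have hAn : ∀ i c, c ∉ A i → ∀ v : Var m, (lab c.1 c.2 : Option (Var m)) = some v →
          ¬ ∃ u, edge (σ u) i = v := by
        rintro i c hc v hv ⟨u, rfl⟩
        apply hc
        rw [hA]
        exact ⟨u, hv⟩
      have key := bounds3 C h2 col A
        (by
          intro g hg c hc j hcA
          rw [hA] at hcA
          obtain ⟨u, hu⟩ := hcA
          exact h3 g hg c hc _ (hσF u) j hu)
        (by
          intro g hg c hc hcA
          rw [hA] at hcA
          obtain ⟨u, hu⟩ := hcA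
          exact h4 g hg c hc _ (hσF u) hu)
        (k := k) hL1 hZ h1 (fun z s t => inp m (val σ z s t))
        (by
          intro z z' s t c hc
          apply inp_congr
          intro v hv
          exact val_indep σ z z' s s t t v (fun _ h => absurd h (hAn 0 c hc v hv))
            (fun _ _ => rfl) (fun _ _ => rfl))
        (by
          intro z s s' t c hc
          apply inp_congr
          intro v hv
          exact val_indep σ z z s s' t t v (fun _ _ => rfl)
            (fun _ h => absurd h (hAn 1 c hc v hv)) (fun _ _ => rfl))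
        (by
          intro z s t t' c hc
          apply inp_congr
          intro v hv
          exact val_indep σ z z s s t t' v (fun _ _ => rfl) (fun _ _ => rfl)
            (fun _ h => absurd h (hAn 2 c hc v hv)))
        (fun x => ¬ Yes n x) (Valid n)
        (fun z s t => inp_valid _ fun v => (val_bound σ z s t v).trans (pow_bound hn))
        (by
          intro z s t
          rw [inp_yes hn, zero_sum_iff σ hσi, not_not])
      refine ⟨key.1, fun hU hC => key.2 hU fun x hx => ?_⟩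
      rw [not_not]
      exact hC x hx
  · have h7 : k = 0 := by
      rw [hk]
      apply Nat.div_eq_of_lt
      push Not at hm
      have h8 : r < 2 ^ r := Nat.lt_two_pow_self
      have h9 : m ≤ 4 * 2 ^ r := by omega
      calc m ^ 2 ≤ (4 * 2 ^ r) ^ 2 := Nat.pow_le_pow_left h9 2
        _ = 2 ^ (2 * r + 4) := by
            rw [mul_pow, pow_add, pow_mul']
            ring
        _ < 2 ^ (39 * r + 18) := Nat.pow_lt_pow_right (by norm_num) (by omega)
    have h10 : k ≤ K := by omega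
    exact ⟨fun _ => htriv h10, fun _ _ => (htriv h10).trans (Nat.le_succ _)⟩

end trade

end Pool.Agent.K1H36.NF
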